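import Pool.Agent.Helper52.KP.Defs

/-!
# Project KP: the Levi form, composition with holomorphic maps
-/

set_option autoImplicit false

namespace Pool.Agent.Helper10.KP

open Pool.Agent.Helper52.KP Filter
open scoped ContDiff ComplexOrder Topology

section Levi

variable {m p : ℕ}

/-- The sesquilinear form attached to a real bilinear form. -/
noncomputable def Bc (B : (Fin m → ℂ) →L[ℝ] (Fin m → ℂ) →L[ℝ] ℝ) (v w : Fin m → ℂ) : ℂ :=
  ((B v w + B (Complex.I • v) (Complex.I • w) : ℝ) : ℂ) +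
    Complex.I * ((B v (Complex.I • w) - B (Complex.I • v) w : ℝ) : ℂ)

theorem smul_split (c : ℂ) (v : Fin m → ℂ) :
    c • v = (c.re : ℝ) • v + (c.im : ℝ) • (Complex.I • v) := by
  funext i
  simp only [Pi.smul_apply, Pi.add_apply, smul_eq_mul, Complex.real_smul]
  conv_lhs => rw [← Complex.re_add_im c]
  ring

theorem I_smul_I_smul (v : Fin m → ℂ) : Complex.I • (Complex.I • v) = -v := by
  rw [smul_smul, Complex.I_mul_I, neg_one_smul]

theorem Bc_add_left (B : (Fin m → ℂ) →L[ℝ] (Fin m → ℂ) →L[ℝ] ℝ) (v v' w : Fin m → ℂ) :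
    Bc B (v + v') w = Bc B v w + Bc B v' w := by
  unfold Bc
  simp only [smul_add, map_add, add_apply]
  push_cast
  ring

theorem Bc_add_right (B : (Fin m → ℂ) →L[ℝ] (Fin m → ℂ) →L[ℝ] ℝ) (v w w' : Fin m → ℂ) :
    Bc B v (w + w') = Bc B v w + Bc B v w' := by
  unfold Bc
  simp only [smul_add, map_add]
  push_cast
  ring

theorem Bc_smul_left (B : (Fin m → ℂ) →L[ℝ] (Fin m → ℂ) →L[ℝ] ℝ) (c : ℂ) (v w : Fin m → ℂ) :
    Bc B (c • v) w = c * Bc B v w := by
  have e : Complex.I • (c • v) = (c.re : ℝ) • (Complex.I • v) - (c.im : ℝ) • v := by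
    rw [smul_comm, smul_split c (Complex.I • v), I_smul_I_smul, smul_neg, sub_eq_add_neg]
  unfold Bc
  rw [e, smul_split c v]
  simp only [map_add, map_sub, map_smul, add_apply,
    sub_apply, smul_apply, smul_eq_mul]
  push_cast
  conv_rhs => rw [← Complex.re_add_im c]
  have hI := Complex.I_mul_I
  linear_combination
    ((B (Complex.I • v) w : ℂ) * c.im - (B v (Complex.I • w) : ℂ) * c.im) * hI

theorem Bc_smul_right (B : (Fin m → ℂ) →L[ℝ] (Fin m → ℂ) →L[ℝ] ℝ) (c : ℂ) (v w : Fin m → ℂ) :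
    Bc B v (c • w) = star c * Bc B v w := by
  have e : Complex.I • (c • w) = (c.re : ℝ) • (Complex.I • w) - (c.im : ℝ) • w := by
    rw [smul_comm, smul_split c (Complex.I • w), I_smul_I_smul, smul_neg, sub_eq_add_neg]
  have e2 : star c = (c.re : ℂ) - c.im * Complex.I := by
    apply Complex.ext <;> simp
  unfold Bc
  rw [e, smul_split c w, e2]
  simp only [map_add, map_sub, map_smul, smul_eq_mul]
  push_cast
  have hI := Complex.I_mul_I
  linear_combination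
    (-(B (Complex.I • v) w : ℂ) * c.im + (B v (Complex.I • w) : ℂ) * c.im) * hI

theorem Bc_sum_left {ι : Type} (B : (Fin m → ℂ) →L[ℝ] (Fin m → ℂ) →L[ℝ] ℝ) (s : Finset ι)
    (f : ι → Fin m → ℂ) (w : Fin m → ℂ) : Bc B (∑ j ∈ s, f j) w = ∑ j ∈ s, Bc B (f j) w :=
  map_sum (AddMonoidHom.mk' (fun v => Bc B v w) fun v v' => Bc_add_left B v v' w) f s

theorem Bc_sum_right {ι : Type} (B : (Fin m → ℂ) →L[ℝ] (Fin m → ℂ) →L[ℝ] ℝ) (s : Finset ι)
    (v : Fin m → ℂ) (f : ι → Fin m → ℂ) : Bc B v (∑ j ∈ s, f j) = ∑ j ∈ s, Bc B v (f j) :=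
  map_sum (AddMonoidHom.mk' (fun w => Bc B v w) fun w w' => Bc_add_right B v w w') f s

theorem eq_sum_single (ξ : Fin m → ℂ) : ξ = ∑ j, ξ j • (Pi.single j (1 : ℂ) : Fin m → ℂ) := by
  funext i
  simp [Finset.sum_apply, Pi.single_apply]

theorem Bc_self (B : (Fin m → ℂ) →L[ℝ] (Fin m → ℂ) →L[ℝ] ℝ) (ξ : Fin m → ℂ) :
    Bc B ξ ξ = ∑ j, ∑ k, Bc B (Pi.single j 1) (Pi.single k 1) * ξ j * star (ξ k) := by
  conv_lhs => rw [eq_sum_single ξ]
  rw [Bc_sum_left]
  refine Finset.sum_congr rfl fun j _ => ?_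
  rw [Bc_sum_right]
  refine Finset.sum_congr rfl fun k _ => ?_
  rw [Bc_smul_left, Bc_smul_right]
  ring

theorem hasFDerivAt_snd {ψ : (Fin m → ℂ) → ℝ} {z : Fin m → ℂ} (hψ : ContDiffAt ℝ 2 ψ z) :
    HasFDerivAt (fderiv ℝ ψ) (fderiv ℝ (fderiv ℝ ψ) z) z := by
  have h : ContDiffAt ℝ 1 (fderiv ℝ ψ) z := hψ.fderiv_right (by norm_num)
  exact (h.differentiableAt (by norm_num)).hasFDerivAt

theorem hes_eq {ψ : (Fin m → ℂ) → ℝ} {z : Fin m → ℂ} (hψ : ContDiffAt ℝ 2 ψ z) (j k : Fin m) :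
    hes ψ z j k = (1 / 4 : ℂ) *
      Bc (fderiv ℝ (fderiv ℝ ψ) z) (Pi.single j 1) (Pi.single k 1) := by
  have h0 := hasFDerivAt_snd hψ
  set B := fderiv ℝ (fderiv ℝ ψ) z with hB
  have h1 : ∀ w : Fin m → ℂ, HasFDerivAt (fun q => fderiv ℝ ψ q w) (B.flip w) z := by
    intro w
    have := h0.clm_apply (hasFDerivAt_const w z)
    simpa using this
  have h2 : ∀ w : Fin m → ℂ, HasFDerivAt (fun q => ((fderiv ℝ ψ q w : ℝ) : ℂ))
      (Complex.ofRealCLM.comp (B.flip w)) z := fun w =>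
    Complex.ofRealCLM.hasFDerivAt.comp z (h1 w)
  have hd : ∀ᶠ q in 𝓝 z, DifferentiableAt ℝ ψ q := by
    have := hψ.eventually (by simp)
    exact this.mono fun q hq => hq.differentiableAt (by norm_num)
  have h3 : db k (cf ψ) =ᶠ[𝓝 z] fun q => ((fderiv ℝ ψ q (Pi.single k 1) : ℝ) : ℂ) * (1 / 2) +
      (Complex.I / 2) * ((fderiv ℝ ψ q (Pi.single k Complex.I) : ℝ) : ℂ) := by
    filter_upwards [hd] with q hq
    have e : HasFDerivAt (cf ψ) (Complex.ofRealCLM.comp (fderiv ℝ ψ q)) q :=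
      Complex.ofRealCLM.hasFDerivAt.comp q hq.hasFDerivAt
    unfold db
    rw [e.fderiv]
    simp only [ContinuousLinearMap.comp_apply, Complex.ofRealCLM_apply]
    ring
  have h4 := ((h2 (Pi.single k 1)).mul_const (1 / 2 : ℂ)).add
    ((h2 (Pi.single k Complex.I)).const_mul (Complex.I / 2))
  have h5 : fderiv ℝ (db k (cf ψ)) z = _ := (h3.fderiv_eq).trans h4.fderiv
  have es : ∀ i : Fin m, (Pi.single i Complex.I : Fin m → ℂ) = Complex.I • Pi.single i 1 := by
    intro i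
    funext l
    by_cases h : l = i
    · subst h
      simp
    · simp [h]
  show dz j (db k (cf ψ)) z = _
  unfold dz Bc
  rw [h5]
  simp only [add_apply, smul_apply,
    ContinuousLinearMap.comp_apply, ContinuousLinearMap.flip_apply, Complex.ofRealCLM_apply,
    smul_eq_mul, es]
  push_cast
  have hI := Complex.I_mul_I
  linear_combination (-(B (Complex.I • Pi.single j 1) (Complex.I • Pi.single k 1) : ℂ) / 4) * hI

/-- The Levi form. -/
theorem hf_hes {ψ : (Fin m → ℂ) → ℝ} {z : Fin m → ℂ} (hψ : ContDiffAt ℝ 2 ψ z)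
    (ξ : Fin m → ℂ) :
    hf (hes ψ z) ξ = (1 / 4) * (fderiv ℝ (fderiv ℝ ψ) z ξ ξ +
      fderiv ℝ (fderiv ℝ ψ) z (Complex.I • ξ) (Complex.I • ξ)) := by
  have e : (∑ j, ∑ k, hes ψ z j k * ξ j * star (ξ k)) =
      (1 / 4 : ℂ) * Bc (fderiv ℝ (fderiv ℝ ψ) z) ξ ξ := by
    rw [Bc_self, Finset.mul_sum]
    refine Finset.sum_congr rfl fun j _ => ?_
    rw [Finset.mul_sum]
    refine Finset.sum_congr rfl fun k _ => ?_
    rw [hes_eq hψ]
    ring
  unfold hf
  rw [e]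
  unfold Bc
  simp only [Complex.add_re, Complex.mul_re, Complex.ofReal_re, Complex.ofReal_im,
    Complex.I_re, Complex.I_im, Complex.add_im, Complex.mul_im]
  norm_num

/-- The Laplacian at `0` of the composition with a holomorphic curve. -/
theorem lap_comp {ψ : (Fin m → ℂ) → ℝ} {A : ℂ → (Fin m → ℂ)}
    (hψ : ContDiffAt ℝ 2 ψ (A 0)) (hA : ContDiffAt ℂ 2 A 0) :
    fderiv ℝ (fderiv ℝ (fun t => ψ (A t))) 0 1 1 +
      fderiv ℝ (fderiv ℝ (fun t => ψ (A t))) 0 Complex.I Complex.I =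
    fderiv ℝ (fderiv ℝ ψ) (A 0) (fderiv ℂ A 0 1) (fderiv ℂ A 0 1) +
      fderiv ℝ (fderiv ℝ ψ) (A 0) (Complex.I • fderiv ℂ A 0 1) (Complex.I • fderiv ℂ A 0 1) := by
  have hcR : ContDiffAt ℝ 2 A 0 := hA.restrict_scalars ℝ
  have hψF : ContDiffAt ℝ 2 (fun q => ψ (A q)) 0 := hψ.comp 0 hcR
  have hG := hasFDerivAt_snd hψ
  set B := fderiv ℝ (fderiv ℝ ψ) (A 0) with hB
  have hdψ : ∀ᶠ q in 𝓝 (0 : ℂ), DifferentiableAt ℝ ψ (A q) := by
    have h1 : ∀ᶠ q in 𝓝 (A 0), DifferentiableAt ℝ ψ q :=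
      (hψ.eventually (by simp)).mono fun q hq => hq.differentiableAt (by norm_num)
    exact hcR.continuousAt.eventually h1
  have hdF : ∀ᶠ q in 𝓝 (0 : ℂ), DifferentiableAt ℂ A q :=
    (hA.eventually (by simp)).mono fun q hq => hq.differentiableAt (by norm_num)
  have h1 : fderiv ℝ (fun q => ψ (A q)) =ᶠ[𝓝 0] fun q =>
      (fderiv ℝ ψ (A q)).comp ((fderiv ℂ A q).restrictScalars ℝ) := by
    filter_upwards [hdψ, hdF] with q h1 h2
    exact (h1.hasFDerivAt.comp q (h2.hasFDerivAt.restrictScalars ℝ)).fderiv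
  have hF2 : HasFDerivAt (fderiv ℂ A) (fderiv ℂ (fderiv ℂ A) 0) 0 := by
    have h : ContDiffAt ℂ 1 (fderiv ℂ A) 0 := hA.fderiv_right (by norm_num)
    exact (h.differentiableAt (by norm_num)).hasFDerivAt
  set F₂ := fderiv ℂ (fderiv ℂ A) 0 with hF₂
  have h2 := ContDiffAt.fderiv_right (m := 1) hψF (by norm_num)
  have h2 : HasFDerivAt (fderiv ℝ (fun q => ψ (A q)))
      (fderiv ℝ (fderiv ℝ (fun q => ψ (A q))) 0) 0 :=
    (h2.differentiableAt (by norm_num)).hasFDerivAt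
  have key : ∀ v w : ℂ, fderiv ℝ (fderiv ℝ (fun q => ψ (A q))) 0 v w =
      B (fderiv ℂ A 0 v) (fderiv ℂ A 0 w) + fderiv ℝ ψ (A 0) (F₂ v w) := by
    intro v w
    have h3 : HasFDerivAt (fun q => fderiv ℝ (fun q => ψ (A q)) q w)
        ((fderiv ℝ (fderiv ℝ (fun q => ψ (A q))) 0).flip w) 0 := by
      have := h2.clm_apply (hasFDerivAt_const w 0)
      simpa using this
    have h4 : HasFDerivAt (fun q => fderiv ℂ A q w) (F₂.flip w) 0 := by
      have := hF2.clm_apply (hasFDerivAt_const w 0)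
      simpa using this
    have h5 : HasFDerivAt (fun q => fderiv ℝ ψ (A q))
        (B.comp ((fderiv ℂ A 0).restrictScalars ℝ)) 0 :=
      hG.comp 0 (hdF.self_of_nhds.hasFDerivAt.restrictScalars ℝ)
    have h6 := h5.clm_apply (h4.restrictScalars ℝ)
    have h7 : (fun q => fderiv ℝ (fun q => ψ (A q)) q w) =ᶠ[𝓝 0]
        fun q => fderiv ℝ ψ (A q) (fderiv ℂ A q w) := by
      filter_upwards [h1] with q hq
      rw [hq]
      rfl
    have h8 := (h3.unique (h6.congr_of_eventuallyEq h7))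
    have h9 := congrArg (fun T => T v) h8
    simp only [ContinuousLinearMap.flip_apply, add_apply,
      ContinuousLinearMap.comp_apply, ContinuousLinearMap.coe_restrictScalars'] at h9
    rw [h9]
    ring
  rw [key, key]
  have e1 : fderiv ℂ A 0 Complex.I = Complex.I • fderiv ℂ A 0 1 := by
    rw [← map_smul, smul_eq_mul, mul_one]
  have e2 : F₂ Complex.I Complex.I = -(F₂ 1 1) := by
    have e3 : F₂ Complex.I = Complex.I • F₂ 1 := by
      rw [← map_smul, smul_eq_mul, mul_one]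
    have e4 : F₂ 1 Complex.I = Complex.I • F₂ 1 1 := by
      rw [← map_smul, smul_eq_mul, mul_one]
    rw [e3, smul_apply, e4, smul_smul, Complex.I_mul_I, neg_one_smul]
  rw [e1, e2, map_neg]
  ring

/-- The Levi form of the composition with a holomorphic map. -/
theorem hf_hes_comp {ψ : (Fin m → ℂ) → ℝ} {F : (Fin p → ℂ) → (Fin m → ℂ)} {z : Fin p → ℂ}
    (hψ : ContDiffAt ℝ 2 ψ (F z)) (hψF : ContDiffAt ℝ 2 (fun q => ψ (F q)) z)
    (hF : ∀ᶠ q in 𝓝 z, DifferentiableAt ℂ F q) (ξ : Fin p → ℂ) :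
    hf (hes (fun q => ψ (F q)) z) ξ = hf (hes ψ (F z)) (fderiv ℂ F z ξ) := by
  set A : ℂ → (Fin p → ℂ) := fun t => z + t • ξ with hAd
  have hA0 : A 0 = z := by simp [hAd]
  have hAc : ContDiffAt ℂ 2 A 0 := by
    apply ContDiff.contDiffAt
    exact contDiff_const.add (contDiff_id.smul contDiff_const)
  have hA' : HasFDerivAt A ((ContinuousLinearMap.id ℂ ℂ).smulRight ξ) 0 := by
    have h := ((hasFDerivAt_id (𝕜 := ℂ) (0 : ℂ)).smul_const ξ).const_add z
    exact h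
  have hA1 : fderiv ℂ A 0 1 = ξ := by
    rw [hA'.fderiv]
    simp
  -- the curve `F ∘ A`
  have hcA : ContinuousAt A 0 := hAc.continuousAt
  have hev : ∀ᶠ t in 𝓝 (0 : ℂ), DifferentiableAt ℂ (fun t => F (A t)) t := by
    have h1 : ∀ᶠ t in 𝓝 (0 : ℂ), DifferentiableAt ℂ F (A t) := by
      have h2 : Tendsto A (𝓝 0) (𝓝 z) := by
        have := hcA.tendsto
        rwa [hA0] at this
      exact h2.eventually hF
    filter_upwards [h1] with t ht
    have h3 : DifferentiableAt ℂ A t := by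
      have h := ((hasFDerivAt_id (𝕜 := ℂ) t).smul_const ξ).const_add z
      exact h.differentiableAt
    exact ht.comp t h3
  have hFA : ContDiffAt ℂ 2 (fun t => F (A t)) 0 := by
    obtain ⟨U, hU, hUo, hU0⟩ := eventually_nhds_iff.mp hev
    have h1 : DifferentiableOn ℂ (fun t => F (A t)) U := fun t ht =>
      (hU t ht).differentiableWithinAt
    exact (h1.contDiffOn hUo).contDiffAt (hUo.mem_nhds hU0)
  have hFA1 : fderiv ℂ (fun t => F (A t)) 0 1 = fderiv ℂ F z ξ := by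
    have h1 : HasFDerivAt F (fderiv ℂ F z) (A 0) := by
      rw [hA0]
      exact hF.self_of_nhds.hasFDerivAt
    have h2 := h1.comp 0 hA'
    have h3 : fderiv ℂ (fun t => F (A t)) 0 = _ := h2.fderiv
    rw [h3]
    simp
  have e1 := lap_comp (ψ := fun q => ψ (F q)) (A := A) (by rw [hA0]; exact hψF) hAc
  have e2 := lap_comp (ψ := ψ) (A := fun t => F (A t)) (by simpa only [hA0] using hψ) hFA
  have e3 : (fun t => (fun q => ψ (F q)) (A t)) = fun t => ψ ((fun t => F (A t)) t) := rfl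
  rw [e3] at e1
  rw [e1] at e2
  rw [hA1, hFA1] at e2
  simp only [hA0] at e2
  rw [hf_hes hψF, hf_hes hψ, e2]

end Levi

end Pool.Agent.Helper10.KP
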