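import Pool.Agent.Helper52.KP.StG
import Pool.Agent.Helper10.KP.Levi

/-!
# Project KP, module GRC: bounds for derivatives on compact subsets of the orbit
-/

set_option autoImplicit false

namespace Pool.Agent.Helper10.KP

open Pool.Agent.Helper52.KP Pool.Agent.Helper67.NO Filter
open scoped ContDiff ComplexOrder Topology

universe u

section Est

variable {m : ℕ}

theorem sq_cont : Continuous (Pool.Agent.Helper52.KP.sq : (Fin m → ℂ) → ℝ) := by
  unfold Pool.Agent.Helper52.KP.sq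
  fun_prop

theorem le_sq (ξ : Fin m → ℂ) (j : Fin m) : ‖ξ j‖ ^ 2 ≤ Pool.Agent.Helper52.KP.sq ξ := by
  unfold Pool.Agent.Helper52.KP.sq
  exact Finset.single_le_sum (f := fun j => ‖ξ j‖ ^ 2) (fun i _ => by positivity)
    (Finset.mem_univ j)

theorem sq_nonneg' (ξ : Fin m → ℂ) : 0 ≤ Pool.Agent.Helper52.KP.sq ξ := by
  unfold Pool.Agent.Helper52.KP.sq
  positivity

theorem norm_sq_le (ξ : Fin m → ℂ) : ‖ξ‖ ^ 2 ≤ Pool.Agent.Helper52.KP.sq ξ := by
  have h0 := sq_nonneg' ξ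
  have h : ‖ξ‖ ≤ Real.sqrt (Pool.Agent.Helper52.KP.sq ξ) := by
    rw [pi_norm_le_iff_of_nonneg (Real.sqrt_nonneg _)]
    intro j
    exact Real.le_sqrt_of_sq_le (le_sq ξ j)
  calc ‖ξ‖ ^ 2 ≤ Real.sqrt (Pool.Agent.Helper52.KP.sq ξ) ^ 2 := by gcongr
    _ = _ := Real.sq_sqrt h0

theorem sq_pos (ξ : Fin m → ℂ) (h : ξ ≠ 0) : 0 < Pool.Agent.Helper52.KP.sq ξ :=
  lt_of_lt_of_le (by have := norm_pos_iff.mpr h; positivity) (norm_sq_le ξ)

theorem hf_cont (A : Matrix (Fin m) (Fin m) ℂ) : Continuous (hf A) := by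
  unfold hf
  fun_prop

theorem hf_real_smul (A : Matrix (Fin m) (Fin m) ℂ) (t : ℝ) (ξ : Fin m → ℂ) :
    hf A (t • ξ) = t ^ 2 * hf A ξ := by
  have e : (∑ j, ∑ k, A j k * (t • ξ) j * star ((t • ξ) k)) =
      ((t ^ 2 : ℝ) : ℂ) * ∑ j, ∑ k, A j k * ξ j * star (ξ k) := by
    rw [Finset.mul_sum]
    refine Finset.sum_congr rfl fun j _ => ?_
    rw [Finset.mul_sum]
    refine Finset.sum_congr rfl fun k _ => ?_
    simp only [Pi.smul_apply, Complex.real_smul, star_mul', Complex.star_def,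
      Complex.conj_ofReal]
    push_cast
    ring
  unfold hf
  rw [e, Complex.re_ofReal_mul]

theorem sq_real_smul (t : ℝ) (ξ : Fin m → ℂ) :
    Pool.Agent.Helper52.KP.sq (t • ξ) = t ^ 2 * Pool.Agent.Helper52.KP.sq ξ := by
  unfold Pool.Agent.Helper52.KP.sq
  rw [Finset.mul_sum]
  refine Finset.sum_congr rfl fun j _ => ?_
  rw [Pi.smul_apply, norm_smul, mul_pow, Real.norm_eq_abs, sq_abs]

theorem pd_lower (A : Matrix (Fin m) (Fin m) ℂ) (hA : ∀ ξ, ξ ≠ 0 → 0 < hf A ξ) :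
    ∃ c : ℝ, 0 < c ∧ ∀ ξ, c * Pool.Agent.Helper52.KP.sq ξ ≤ hf A ξ := by
  have h00 : hf A 0 = 0 := by simp [hf]
  have hs0 : Pool.Agent.Helper52.KP.sq (0 : Fin m → ℂ) = 0 := by
    simp [Pool.Agent.Helper52.KP.sq]
  have hK : IsCompact {ξ : Fin m → ℂ | Pool.Agent.Helper52.KP.sq ξ = 1} := by
    refine Metric.isCompact_of_isClosed_isBounded (isClosed_eq sq_cont continuous_const) ?_
    refine (Metric.isBounded_closedBall (x := (0 : Fin m → ℂ)) (r := 1)).subset ?_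
    intro ξ hξ
    rw [mem_closedBall_zero_iff]
    have h1 := norm_sq_le ξ
    rw [show Pool.Agent.Helper52.KP.sq ξ = 1 from hξ] at h1
    nlinarith [norm_nonneg ξ]
  have hsc : ∀ ξ : Fin m → ℂ, ξ ≠ 0 → ∀ c : ℝ,
      (∀ η : Fin m → ℂ, Pool.Agent.Helper52.KP.sq η = 1 → c ≤ hf A η) →
      c * Pool.Agent.Helper52.KP.sq ξ ≤ hf A ξ := by
    intro ξ hξ c hc
    have hp := sq_pos ξ hξ
    set s := Pool.Agent.Helper52.KP.sq ξ with hs
    set t := (Real.sqrt s)⁻¹ with ht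
    have ht2 : t ^ 2 = s⁻¹ := by
      rw [ht, inv_pow, Real.sq_sqrt hp.le]
    have h1 := hc (t • ξ) (by rw [sq_real_smul, ht2, ← hs, inv_mul_cancel₀ hp.ne'])
    rw [hf_real_smul, ht2] at h1
    have h2 := mul_le_mul_of_nonneg_right h1 hp.le
    calc c * s ≤ s⁻¹ * hf A ξ * s := h2
      _ = hf A ξ := by field_simp
  by_cases hne : {ξ : Fin m → ℂ | Pool.Agent.Helper52.KP.sq ξ = 1}.Nonempty
  · obtain ⟨ξ₀, h1, h2⟩ := hK.exists_isMinOn hne (hf_cont A).continuousOn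
    have hξ₀ : ξ₀ ≠ 0 := by
      rintro rfl
      rw [Set.mem_ofPred_eq, hs0] at h1
      exact zero_ne_one h1
    refine ⟨hf A ξ₀, hA ξ₀ hξ₀, fun ξ => ?_⟩
    by_cases hξ : ξ = 0
    · rw [hξ, hs0, h00, mul_zero]
    · exact hsc ξ hξ _ fun η hη => h2 hη
  · refine ⟨1, one_pos, fun ξ => ?_⟩
    by_cases hξ : ξ = 0
    · rw [hξ, hs0, h00, mul_zero]
    · exact hsc ξ hξ _ fun η hη => (hne ⟨η, hη⟩).elim

theorem hf_diff (A A' : Matrix (Fin m) (Fin m) ℂ) (ξ : Fin m → ℂ) :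
    hf A' ξ ≤ hf A ξ + (∑ j, ∑ k, ‖A j k - A' j k‖) * Pool.Agent.Helper52.KP.sq ξ := by
  have e : hf A' ξ - hf A ξ = (∑ j, ∑ k, (A' j k - A j k) * ξ j * star (ξ k)).re := by
    unfold hf
    rw [← Complex.sub_re]
    congr 1
    rw [← Finset.sum_sub_distrib]
    refine Finset.sum_congr rfl fun j _ => ?_
    rw [← Finset.sum_sub_distrib]
    refine Finset.sum_congr rfl fun k _ => ?_
    ring
  have h : (∑ j, ∑ k, (A' j k - A j k) * ξ j * star (ξ k)).re ≤
      (∑ j, ∑ k, ‖A j k - A' j k‖) * Pool.Agent.Helper52.KP.sq ξ := by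
    refine (Complex.re_le_norm _).trans ?_
    refine (norm_sum_le _ _).trans ?_
    rw [Finset.sum_mul]
    refine Finset.sum_le_sum fun j _ => ?_
    refine (norm_sum_le _ _).trans ?_
    rw [Finset.sum_mul]
    refine Finset.sum_le_sum fun k _ => ?_
    rw [norm_mul, norm_mul, norm_star, mul_assoc, norm_sub_rev]
    refine mul_le_mul_of_nonneg_left ?_ (norm_nonneg _)
    nlinarith [le_sq ξ j, le_sq ξ k, sq_nonneg (‖ξ j‖ - ‖ξ k‖)]
  linarith

theorem pd_near (A : (Fin m → ℂ) → Matrix (Fin m) (Fin m) ℂ)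
    (hc : ∀ j k, ContinuousAt (fun w => A w j k) 0) (hA : ∀ ξ, ξ ≠ 0 → 0 < hf (A 0) ξ) :
    ∃ c : ℝ, 0 < c ∧ ∀ᶠ w in 𝓝 0, ∀ ξ, c * Pool.Agent.Helper52.KP.sq ξ ≤ hf (A w) ξ := by
  obtain ⟨c, hc0, hlow⟩ := pd_lower (A 0) hA
  refine ⟨c / 2, by linarith, ?_⟩
  have h1 : ContinuousAt (fun w => ∑ j, ∑ k, ‖A w j k - A 0 j k‖) 0 := by
    refine tendsto_finsetSum _ fun j _ => tendsto_finsetSum _ fun k _ => ?_
    exact ((hc j k).sub continuousAt_const).norm
  have h2 : ∀ᶠ w in 𝓝 0, (∑ j, ∑ k, ‖A w j k - A 0 j k‖) < c / 2 := by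
    refine h1.eventually_lt continuousAt_const ?_
    simp only [sub_self, norm_zero, Finset.sum_const_zero]
    linarith
  filter_upwards [h2] with w hw ξ
  have h3 := hf_diff (A w) (A 0) ξ
  have h4 := hlow ξ
  have h5 := mul_le_mul_of_nonneg_right hw.le (sq_nonneg' ξ)
  linarith

/-- Cauchy's estimate. -/
theorem cauchy_near {F : (Fin m → ℂ) → ℂ} (hF : Differentiable ℂ F) :
    ∃ K : ℝ, 0 ≤ K ∧ ∀ᶠ w in 𝓝 (0 : Fin m → ℂ), ∀ ζ,
      ‖fderiv ℂ F w ζ‖ ^ 2 ≤ K * Pool.Agent.Helper52.KP.sq ζ := by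
  obtain ⟨M, hM⟩ := (isCompact_closedBall (0 : Fin m → ℂ) 2).exists_bound_of_continuousOn
    hF.continuous.continuousOn
  have hM0 : 0 ≤ M := (norm_nonneg _).trans (hM 0 (by simp))
  refine ⟨M ^ 2, by positivity, ?_⟩
  filter_upwards [Metric.ball_mem_nhds (0 : Fin m → ℂ) one_pos] with w hw ζ
  have hw' : ‖w‖ < 1 := by simpa using hw
  have h1 : ∀ u : Fin m → ℂ, ‖u‖ = 1 → ‖fderiv ℂ F w u‖ ≤ M := by
    intro u hu
    have hA : ∀ t : ℂ, HasFDerivAt (fun t : ℂ => w + t • u)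
        ((ContinuousLinearMap.id ℂ ℂ).smulRight u) t := fun t =>
      ((hasFDerivAt_id (𝕜 := ℂ) t).smul_const u).const_add w
    have hd : Differentiable ℂ (fun t : ℂ => F (w + t • u)) := fun t =>
      (hF _).comp t (hA t).differentiableAt
    have h2 := Complex.norm_deriv_le_of_forall_mem_sphere_norm_le (c := 0) (R := 1) (C := M)
      (f := fun t : ℂ => F (w + t • u)) one_pos hd.diffContOnCl (by
        intro t ht
        refine hM _ ?_
        rw [mem_closedBall_zero_iff]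
        have ht' : ‖t‖ = 1 := by simpa using ht
        calc ‖w + t • u‖ ≤ ‖w‖ + ‖t • u‖ := norm_add_le _ _
          _ ≤ 2 := by
            rw [norm_smul, ht', hu]
            linarith)
    have h3 : deriv (fun t : ℂ => F (w + t • u)) 0 = fderiv ℂ F w u := by
      have h4 : HasFDerivAt F (fderiv ℂ F w) (w + (0 : ℂ) • u) := by
        simpa using (hF w).hasFDerivAt
      have h5 := h4.comp (0 : ℂ) (hA 0)
      rw [← fderiv_apply_one_eq_deriv]
      have h6 : fderiv ℂ (fun t : ℂ => F (w + t • u)) 0 = _ := h5.fderiv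
      rw [h6]
      simp
    rw [h3, div_one] at h2
    exact h2
  have h2 : ‖fderiv ℂ F w ζ‖ ≤ M * ‖ζ‖ := by
    by_cases hζ : ζ = 0
    · simp [hζ]
    · have hn : 0 < ‖ζ‖ := norm_pos_iff.mpr hζ
      have h3 := h1 (((‖ζ‖⁻¹ : ℝ) : ℂ) • ζ) (by
        rw [norm_smul, Complex.norm_real, norm_inv, norm_norm, inv_mul_cancel₀ hn.ne'])
      rw [map_smul, norm_smul, Complex.norm_real, norm_inv, norm_norm] at h3
      have h4 := mul_le_mul_of_nonneg_left h3 hn.le
      calc ‖fderiv ℂ F w ζ‖ = ‖ζ‖ * (‖ζ‖⁻¹ * ‖fderiv ℂ F w ζ‖) := by field_simp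
        _ ≤ ‖ζ‖ * M := h4
        _ = _ := mul_comm _ _
  calc ‖fderiv ℂ F w ζ‖ ^ 2 ≤ (M * ‖ζ‖) ^ 2 := by gcongr
    _ = M ^ 2 * ‖ζ‖ ^ 2 := by ring
    _ ≤ M ^ 2 * Pool.Agent.Helper52.KP.sq ζ :=
      mul_le_mul_of_nonneg_left (norm_sq_le ζ) (by positivity)

theorem dz_eq {f : (Fin m → ℂ) → ℂ} {z : Fin m → ℂ} (h : DifferentiableAt ℂ f z) (j : Fin m) :
    dz j f z = fderiv ℂ f z (Pi.single j 1) := by
  have e : fderiv ℝ f z = (fderiv ℂ f z).restrictScalars ℝ := h.fderiv_restrictScalars ℝ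
  have es : (Pi.single j Complex.I : Fin m → ℂ) = Complex.I • Pi.single j 1 := by
    funext l
    by_cases h : l = j
    · subst h
      simp
    · simp [h]
  unfold dz
  rw [e, es]
  simp only [ContinuousLinearMap.coe_restrictScalars', map_smul, smul_eq_mul]
  linear_combination (-(fderiv ℂ f z (Pi.single j 1)) / 2) * Complex.I_mul_I

theorem sum_dz {f : (Fin m → ℂ) → ℂ} {z : Fin m → ℂ} (h : DifferentiableAt ℂ f z)
    (ξ : Fin m → ℂ) : ∑ j, dz j f z * ξ j = fderiv ℂ f z ξ := by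
  conv_rhs => rw [eq_sum_single ξ, map_sum]
  refine Finset.sum_congr rfl fun j _ => ?_
  rw [dz_eq h, map_smul, smul_eq_mul, mul_comm]

end Est

section Lie

variable {g : Type u} [LieRing g] [LieAlgebra ℂ g] [FiniteDimensional ℂ g]

theorem kks_det [LieAlgebra.IsSemisimple ℂ g] (x : g) {k : ℕ} (X : Fin k → g) (h : Frm x X) :
    (Matrix.of fun i j : Fin k => killingForm ℂ g x ⁅X i, X j⁆).det ≠ 0 := by
  intro hd
  obtain ⟨v, hv, h0⟩ := Matrix.exists_mulVec_eq_zero_iff.mpr hd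
  have h1 : ∀ i, killingForm ℂ g x ⁅X i, ∑ j, v j • X j⁆ = 0 := by
    intro i
    have h2 := congrFun h0 i
    rw [Matrix.mulVec, Pi.zero_apply, dotProduct] at h2
    rw [lie_sum, map_sum, ← h2]
    refine Finset.sum_congr rfl fun j _ => ?_
    rw [lie_smul, map_smul, smul_eq_mul, mul_comm]
    rfl
  set V := ∑ j, v j • X j with hV
  have h2 : ∀ i, killingForm ℂ g V ⁅X i, x⁆ = 0 := by
    intro i
    have h3 : killingForm ℂ g ⁅x, X i⁆ V = killingForm ℂ g x ⁅X i, V⁆ :=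
      LieModule.traceForm_apply_lie_apply ℂ g g x (X i) V
    rw [LieModule.traceForm_comm, ← lie_skew (X i) x, map_neg, LinearMap.neg_apply]
    exact neg_eq_zero.mpr (h3.trans (h1 i))
  have h3 : ∀ y : g, killingForm ℂ g V ⁅x, y⁆ = 0 := by
    have h4 : LinearMap.range (LieAlgebra.ad ℂ g x : g →ₗ[ℂ] g) ≤
        LinearMap.ker (killingForm ℂ g V) := by
      rw [← h.span, Submodule.span_le]
      rintro _ ⟨i, rfl⟩
      exact h2 i
    intro y
    exact h4 ⟨y, rfl⟩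
  have h5 : ⁅V, x⁆ = 0 := by
    have h6 : ⁅V, x⁆ ∈ LinearMap.ker (killingForm ℂ g) := by
      rw [LinearMap.mem_ker]
      ext y
      rw [LinearMap.zero_apply]
      have h7 : killingForm ℂ g ⁅V, x⁆ y = killingForm ℂ g V ⁅x, y⁆ :=
        LieModule.traceForm_apply_lie_apply ℂ g g V x y
      rw [h7, h3]
    rw [LieAlgebra.IsKilling.ker_killingForm_eq_bot] at h6
    simpa using h6
  have h6 : ∑ j, v j • ⁅X j, x⁆ = 0 := by
    rw [← h5, hV, sum_lie]
    exact Finset.sum_congr rfl fun j _ => (smul_lie _ _ _).symm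
  exact hv (funext (Fintype.linearIndependent_iff.mp h.li v h6))

theorem co_sub (x y : g) (i : Fin (Module.finrank ℂ g)) : co (x - y) i = co x i - co y i := by
  simp [co]

theorem co_symm (v : Fin (Module.finrank ℂ g) → ℂ) :
    co ((Module.finBasis ℂ g).equivFun.symm v) = v := by
  funext i
  have h := congrFun ((Module.finBasis ℂ g).equivFun.apply_symm_apply v) i
  rwa [Module.Basis.equivFun_apply] at h

theorem symm_co (x : g) : (Module.finBasis ℂ g).equivFun.symm (co x) = x :=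
  (Module.finBasis ℂ g).equivFun.symm_apply_apply x

theorem size_eq (x y : g) : size (x - y) = ∑ i, ‖co x i - co y i‖ := by
  unfold size
  refine Finset.sum_congr rfl fun i _ => ?_
  rw [← co_sub]
  rfl

theorem mns_cont (m : ℕ) : Continuous fun v : Fin (Module.finrank ℂ g) → ℂ =>
    mns m ((Module.finBasis ℂ g).equivFun.symm v : g) := by
  have hL : ∀ a b : Fin (Module.finrank ℂ g), Continuous
      fun v : Fin (Module.finrank ℂ g) → ℂ =>
        (LinearMap.toMatrix (Module.finBasis ℂ g) (Module.finBasis ℂ g)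
          (LieAlgebra.ad ℂ g ((Module.finBasis ℂ g).equivFun.symm v : g) : g →ₗ[ℂ] g)) a b := by
    intro a b
    let L : (Fin (Module.finrank ℂ g) → ℂ) →ₗ[ℂ] ℂ :=
      (LinearMap.proj b).comp ((LinearMap.proj a).comp
        ((LinearMap.toMatrix (Module.finBasis ℂ g) (Module.finBasis ℂ g)).toLinearMap.comp
          ((LieAlgebra.ad ℂ g : g →ₗ[ℂ] Module.End ℂ g).comp
            (Module.finBasis ℂ g).equivFun.symm.toLinearMap)))
    exact L.continuous_of_finiteDimensional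
  unfold mns
  refine continuous_finsetSum _ fun a _ => continuous_finsetSum _ fun b _ => ?_
  refine Continuous.norm ?_
  unfold mnr
  refine Continuous.matrix_det ?_
  exact continuous_matrix fun i j => hL (a i) (b j)

theorem rk_zero' : rk (0 : g) = 0 := by
  unfold rk
  rw [map_zero]
  simp

end Lie

section Local

variable {g : Type u} [LieRing g] [LieAlgebra ℂ g] [FiniteDimensional ℂ g]
  [LieAlgebra.IsSemisimple ℂ g]

theorem grc_local (hRHO : StRHO.{u}) (hHLC : StHLC.{u}) (hORB : StORB.{u}) (hNEA : StNEA.{u})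
    (x₀ : g) (h0 : x₀ ≠ 0) (hn : IsNilpotent (LieAlgebra.ad ℂ g x₀)) (ρ : g → ℝ)
    (hρ : RicciFlatCone x₀ ρ) (C : Ch x₀) (k : ℕ) (f : OO x₀ → ℂ) (hf' : f ∈ Hol x₀ k)
    (x : g) (hx : Orb x₀ x) :
    ∃ B η : ℝ, 0 < η ∧ ∀ z, MvPolynomial.eval z C.Δ ≠ 0 → size (C.Φ z - x) < η →
      ∀ ξ : Fin C.m → ℂ, ‖∑ j, dz j (fun z => ext f (C.Φ z)) z * ξ j‖ ^ 2 ≤
        B * hf (hes (fun z => ρ (C.Φ z)) z) ξ := by
  obtain ⟨-, -, hO3, hO4, -, hO6, -⟩ := hORB g
  obtain ⟨-, hrk, hnil⟩ := hO3 x₀ x hx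
  have hxn := hnil hn
  have hm : C.m = rk x := by rw [hrk]; exact C.hrk
  have hx0 : x ≠ 0 := by
    rintro rfl
    rw [rk_zero'] at hm
    have h1 := C.hm
    have h2 := C.hn
    omega
  obtain ⟨X, hX⟩ : ∃ X : Fin C.m → g, Frm x X := by
    rw [hm]
    exact hO6 x
  obtain ⟨hE, hE0, hE'⟩ := hO4 C.m x X
  obtain ⟨W, δ', ε', hδ', hε', hWd, hW1, hW2⟩ := hNEA g x hx0 hxn C.m X hX
  have hEorb : ∀ w : Fin C.m → ℂ, Orb x₀ (chart x X w) := fun w => Orb.step x _ hx
  -- the functions in the exponential chart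
  have hF : Differentiable ℂ (fun w => ext f (chart x X w)) := by
    have h1 := hHLC g x₀ h0 hn C.m Set.univ isOpen_univ (chart x X) hE (fun z _ => hEorb z) k f hf'
    exact fun w => (h1 w (Set.mem_univ w)).differentiableAt Filter.univ_mem
  obtain ⟨hR1, -, hR3⟩ := hRHO g x₀ h0 hn ρ hρ C.m Set.univ isOpen_univ (chart x X) hE
    (fun z _ => hEorb z)
  have hR : ContDiff ℝ ∞ (fun w => ρ (chart x X w)) := contDiffOn_univ.mp hR1
  have hPd : Pd (hes (fun w => ρ (chart x X w)) 0) := by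
    refine (hR3 C.hrk 0 (Set.mem_univ 0) X ?_).2 ?_
    · intro i
      rw [hE0, hE']
      congr 2
      simp [Pi.single_apply, Finset.sum_ite_eq']
    · rw [hE0]
      exact kks_det x X hX
  obtain ⟨K, hK0, hK⟩ := cauchy_near hF
  obtain ⟨c, hc0, hc⟩ := pd_near (hes (fun w => ρ (chart x X w))) (by
    intro j l
    have hR2 : ContDiff ℝ 2 (fun w => ρ (chart x X w)) := hR.of_le (by exact WithTop.coe_le_coe.2 le_top)
    have e : (fun w => hes (fun w => ρ (chart x X w)) w j l) = fun w => (1 / 4 : ℂ) *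
        Bc (fderiv ℝ (fderiv ℝ (fun w => ρ (chart x X w))) w) (Pi.single j 1) (Pi.single l 1) := by
      funext w
      exact hes_eq hR2.contDiffAt j l
    rw [e]
    have hcB : Continuous (fderiv ℝ (fderiv ℝ (fun w => ρ (chart x X w)))) := by
      have h1 : ContDiff ℝ 1 (fderiv ℝ (fun w => ρ (chart x X w))) :=
        hR2.fderiv_right (by norm_num)
      exact h1.continuous_fderiv (by norm_num)
    have hcB2 : ∀ v w' : Fin C.m → ℂ, Continuous
        fun w => fderiv ℝ (fderiv ℝ (fun w => ρ (chart x X w))) w v w' := fun v w' =>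
      (hcB.clm_apply continuous_const).clm_apply continuous_const
    apply Continuous.continuousAt
    unfold Bc
    have h1 := hcB2 (Pi.single j 1) (Pi.single l 1)
    have h2 := hcB2 (Complex.I • Pi.single j 1) (Complex.I • Pi.single l 1)
    have h3 := hcB2 (Pi.single j 1) (Complex.I • Pi.single l 1)
    have h4 := hcB2 (Complex.I • Pi.single j 1) (Pi.single l 1)
    exact continuous_const.mul ((Complex.continuous_ofReal.comp (h1.add h2)).add
      (continuous_const.mul (Complex.continuous_ofReal.comp (h3.sub h4))))) hPd.2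
  -- a neighbourhood of `x`
  have hWx : W x = 0 := by
    have h1 := (hW2 0 (by simpa using hε')).2
    rwa [hE0] at h1
  set Wc : (Fin (Module.finrank ℂ g) → ℂ) → Fin C.m → ℂ :=
    fun v => W ((Module.finBasis ℂ g).equivFun.symm v) with hWc
  have hDo : IsOpen {v : Fin (Module.finrank ℂ g) → ℂ | ∑ i, ‖v i - co x i‖ < δ'} :=
    isOpen_lt (by fun_prop) continuous_const
  have hDx : co x ∈ {v : Fin (Module.finrank ℂ g) → ℂ | ∑ i, ‖v i - co x i‖ < δ'} := by
    simpa using hδ'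
  have hWc0 : Wc (co x) = 0 := by
    rw [hWc]
    simp only [symm_co]
    exact hWx
  have hWcc : ContinuousAt Wc (co x) :=
    ((hWd _ hDx).differentiableAt (hDo.mem_nhds hDx)).continuousAt
  have hev : ∀ᶠ v in 𝓝 (co x),
      (∀ ζ, ‖fderiv ℂ (fun w => ext f (chart x X w)) (Wc v) ζ‖ ^ 2 ≤
        K * Pool.Agent.Helper52.KP.sq ζ) ∧
      ∀ ξ, c * Pool.Agent.Helper52.KP.sq ξ ≤ hf (hes (fun w => ρ (chart x X w)) (Wc v)) ξ := by
    have h1 : Tendsto Wc (𝓝 (co x)) (𝓝 0) := by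
      have := hWcc.tendsto
      rwa [hWc0] at this
    exact h1.eventually (hK.and hc)
  obtain ⟨η₀, hη₀, hball⟩ := Metric.eventually_nhds_iff.mp hev
  refine ⟨K / c, min η₀ δ', lt_min hη₀ hδ', fun z hz hzx ξ => ?_⟩
  -- near `z`
  have hpd : ∀ P : MvPolynomial (Fin C.m) ℂ, Differentiable ℂ fun z => MvPolynomial.eval z P :=
    fun P z' => ((AnalyticOnNhd.eval_mvPolynomial P) z' (Set.mem_univ z')).differentiableAt
  have hΦd : Differentiable ℂ (fun z => co (C.Φ z)) := by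
    rw [differentiable_pi]
    intro i
    obtain ⟨P, hP⟩ := C.poly i
    have e : (fun z => co (C.Φ z) i) = fun z => MvPolynomial.eval z P := funext hP
    rw [e]
    exact hpd P
  have hUo : IsOpen {z : Fin C.m → ℂ | MvPolynomial.eval z C.Δ ≠ 0} :=
    isOpen_ne_fun (hpd C.Δ).continuous continuous_const
  have hΦc := hΦd.continuous
  set U' : Set (Fin C.m → ℂ) := {z' | MvPolynomial.eval z' C.Δ ≠ 0} ∩
    {z' | ∑ i, ‖co (C.Φ z') i - co x i‖ < δ'} with hU'
  have hU'o : IsOpen U' := by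
    refine hUo.inter (isOpen_lt ?_ continuous_const)
    refine continuous_finsetSum _ fun i _ => ?_
    exact (((continuous_apply i).comp hΦc).sub continuous_const).norm
  have hzU' : z ∈ U' := by
    refine ⟨hz, ?_⟩
    show ∑ i, ‖co (C.Φ z) i - co x i‖ < δ'
    rw [← size_eq]
    exact lt_of_lt_of_le hzx (min_le_right _ _)
  have hΦE : ∀ z' ∈ U', C.Φ z' = chart x X (W (C.Φ z')) := by
    intro z' hz'
    have ho : Orb x₀ (C.Φ z') := C.orb z' hz'.1
    obtain ⟨-, hr', hn'⟩ := hO3 _ _ ho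
    exact hW1 _ (by rw [size_eq]; exact hz'.2) (hn' hn) (by rw [hr', hrk])
  set T : (Fin C.m → ℂ) → Fin C.m → ℂ := fun z' => W (C.Φ z') with hT
  have hTW : T = fun z' => Wc (co (C.Φ z')) := by
    funext z'
    simp only [hT, hWc, symm_co]
  have hTd : ∀ z' ∈ U', DifferentiableAt ℂ T z' := by
    intro z' hz'
    rw [hTW]
    have h1 : DifferentiableAt ℂ Wc (co (C.Φ z')) :=
      (hWd _ hz'.2).differentiableAt (hDo.mem_nhds hz'.2)
    exact DifferentiableAt.comp (g := Wc) (f := fun z => co (C.Φ z)) z' h1 (hΦd z')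
  have hU'n : U' ∈ 𝓝 z := hU'o.mem_nhds hzU'
  have ef : (fun z => ext f (C.Φ z)) =ᶠ[𝓝 z] fun z' => ext f (chart x X (T z')) := by
    filter_upwards [hU'n] with z' hz'
    exact congrArg (ext f) (hΦE z' hz')
  have eρ : (fun z => ρ (C.Φ z)) =ᶠ[𝓝 z] fun z' => ρ (chart x X (T z')) := by
    filter_upwards [hU'n] with z' hz'
    exact congrArg ρ (hΦE z' hz')
  have h1 : ∑ j, dz j (fun z => ext f (C.Φ z)) z * ξ j =
      fderiv ℂ (fun w => ext f (chart x X w)) (T z) (fderiv ℂ T z ξ) := by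
    have hd : HasFDerivAt (fun z' => ext f (chart x X (T z')))
        ((fderiv ℂ (fun w => ext f (chart x X w)) (T z)).comp (fderiv ℂ T z)) z :=
      (hF (T z)).hasFDerivAt.comp z (hTd z hzU').hasFDerivAt
    have hd' := hd.congr_of_eventuallyEq ef
    rw [sum_dz hd'.differentiableAt, hd'.fderiv]
    rfl
  have h2 : hf (hes (fun z => ρ (C.Φ z)) z) ξ =
      hf (hes (fun w => ρ (chart x X w)) (T z)) (fderiv ℂ T z ξ) := by
    have hs : ContDiffAt ℝ 2 (fun z => ρ (C.Φ z)) z := by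
      have h3 := (hRHO g x₀ h0 hn ρ hρ C.m _ hUo C.Φ hΦd.differentiableOn
        (fun z hz => C.orb z hz)).1
      exact (h3.contDiffAt (hUo.mem_nhds hz)).of_le (by exact WithTop.coe_le_coe.2 le_top)
    have hs' : ContDiffAt ℝ 2 (fun z' => ρ (chart x X (T z'))) z :=
      hs.congr_of_eventuallyEq eρ.symm
    have h4 := hf_hes_comp (ψ := fun w => ρ (chart x X w)) (F := T) (z := z)
      (hR.of_le (by exact WithTop.coe_le_coe.2 le_top)).contDiffAt hs' (by filter_upwards [hU'n] with q hq; exact hTd q hq) ξ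
    rw [← h4, hf_hes hs, hf_hes hs', (eρ.fderiv (𝕜 := ℝ)).fderiv_eq]
  have hdist : dist (co (C.Φ z)) (co x) < η₀ := by
    rw [dist_pi_lt_iff hη₀]
    intro i
    rw [dist_eq_norm]
    have h3 : ‖co (C.Φ z) i - co x i‖ ≤ ∑ i, ‖co (C.Φ z) i - co x i‖ :=
      Finset.single_le_sum (f := fun i => ‖co (C.Φ z) i - co x i‖)
        (fun i _ => norm_nonneg _) (Finset.mem_univ i)
    rw [← size_eq] at h3
    exact lt_of_le_of_lt h3 (lt_of_lt_of_le hzx (min_le_left _ _))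
  obtain ⟨hb1, hb2⟩ := hball hdist
  have hTz : Wc (co (C.Φ z)) = T z := by rw [hTW]
  rw [hTz] at hb1 hb2
  rw [h1, h2]
  calc ‖fderiv ℂ (fun w => ext f (chart x X w)) (T z) (fderiv ℂ T z ξ)‖ ^ 2
      ≤ K * Pool.Agent.Helper52.KP.sq (fderiv ℂ T z ξ) := hb1 _
    _ = K / c * (c * Pool.Agent.Helper52.KP.sq (fderiv ℂ T z ξ)) := by
        field_simp
    _ ≤ K / c * hf (hes (fun w => ρ (chart x X w)) (T z)) (fderiv ℂ T z ξ) :=
        mul_le_mul_of_nonneg_left (hb2 _) (by positivity)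

end Local

/-- Module GRC.  `StNEA` is used in addition to the inputs of the docstring. -/
theorem hGRC (hCLO : StCLO.{u}) (hRHO : StRHO.{u}) (hHLC : StHLC.{u}) (hORB : StORB.{u})
    (hNEA : StNEA.{u}) : StGRC.{u} := by
  intro g _ _ _ _ x₀ h0 hn ρ hρ C k f hf' r δ hδ
  by_contra hcon
  push Not at hcon
  choose z hz hzr hzδ ξ hξ using fun i : ℕ => hcon (i : ℝ)
  have hr0 : 0 ≤ r := le_trans (by unfold size; positivity) (hzr 0)
  have hpd : ∀ P : MvPolynomial (Fin C.m) ℂ, Differentiable ℂ fun z => MvPolynomial.eval z P :=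
    fun P z' => ((AnalyticOnNhd.eval_mvPolynomial P) z' (Set.mem_univ z')).differentiableAt
  have hmem : ∀ i, co (C.Φ (z i)) ∈ Metric.closedBall (0 : Fin (Module.finrank ℂ g) → ℂ) r := by
    intro i
    rw [mem_closedBall_zero_iff, pi_norm_le_iff_of_nonneg hr0]
    intro j
    refine le_trans ?_ (hzr i)
    exact Finset.single_le_sum (f := fun j => ‖(Module.finBasis ℂ g).repr (C.Φ (z i)) j‖)
      (fun i _ => norm_nonneg _) (Finset.mem_univ j)
  obtain ⟨v, -, φ, hφ, hlim⟩ := (isCompact_closedBall _ _).tendsto_subseq hmem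
  set x : g := (Module.finBasis ℂ g).equivFun.symm v with hx
  have hcx : co x = v := co_symm v
  have hmns : δ ≤ mns C.m x := by
    have h1 : Tendsto (fun i => mns C.m (C.Φ (z (φ i)))) atTop (𝓝 (mns C.m x)) := by
      have h2 := ((mns_cont (g := g) C.m).tendsto v).comp hlim
      refine h2.congr fun i => ?_
      simp only [Function.comp_apply, symm_co]
    exact ge_of_tendsto' h1 fun i => hzδ (φ i)
  have hpos : 0 < mns (rk x₀) x := by
    rw [← C.hrk]
    linarith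
  have hOx : Orb x₀ x :=
    ((hCLO g x₀ h0 hn).2 x (fun i => C.Φ (z (φ i))) (fun i => C.orb _ (hz _)) hpos
      (by rw [hcx]; exact hlim)).1
  obtain ⟨B, η, hη, hloc⟩ := grc_local hRHO hHLC hORB hNEA x₀ h0 hn ρ hρ C k f hf' x hOx
  have hs : Tendsto (fun i => size (C.Φ (z (φ i)) - x)) atTop (𝓝 0) := by
    have h1 : ∀ i, size (C.Φ (z (φ i)) - x) = ∑ j, ‖co (C.Φ (z (φ i))) j - co x j‖ :=
      fun i => size_eq _ _
    simp only [h1]
    have h2 : Tendsto (fun i => ∑ j, ‖co (C.Φ (z (φ i))) j - co x j‖) atTop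
        (𝓝 (∑ j : Fin (Module.finrank ℂ g), ‖v j - co x j‖)) := by
      refine tendsto_finsetSum _ fun j _ => ?_
      exact (((tendsto_pi_nhds.mp hlim) j).sub_const _).norm
    rw [hcx] at h2 ⊢
    simpa using h2
  have hev1 : ∀ᶠ i in atTop, size (C.Φ (z (φ i)) - x) < η := hs.eventually (gt_mem_nhds hη)
  have hev2 : ∀ᶠ i : ℕ in atTop, B ≤ (i : ℝ) := tendsto_natCast_atTop_atTop.eventually_ge_atTop B
  obtain ⟨i, h1, h2⟩ := (hev1.and hev2).exists
  have h3 := hloc (z (φ i)) (hz _) h1 (ξ (φ i))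
  have h4 := hξ (φ i)
  have hUo : IsOpen {z : Fin C.m → ℂ | MvPolynomial.eval z C.Δ ≠ 0} :=
    isOpen_ne_fun (hpd C.Δ).continuous continuous_const
  have hΦd : Differentiable ℂ (fun z => co (C.Φ z)) := by
    rw [differentiable_pi]
    intro i
    obtain ⟨P, hP⟩ := C.poly i
    have e : (fun z => co (C.Φ z) i) = fun z => MvPolynomial.eval z P := funext hP
    rw [e]
    exact hpd P
  have h5 : 0 ≤ hf (hes (fun z => ρ (C.Φ z)) (z (φ i))) (ξ (φ i)) :=
    ((hRHO g x₀ h0 hn ρ hρ C.m _ hUo C.Φ hΦd.differentiableOn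
      (fun z hz => C.orb z hz)).2.1 _ (hz _)).2 _
  have h6 : (i : ℝ) ≤ (φ i : ℝ) := by exact_mod_cast hφ.id_le i
  have h7 : B * hf (hes (fun z => ρ (C.Φ z)) (z (φ i))) (ξ (φ i)) ≤
      (φ i : ℝ) * hf (hes (fun z => ρ (C.Φ z)) (z (φ i))) (ξ (φ i)) :=
    mul_le_mul_of_nonneg_right (h2.trans h6) h5
  linarith

end Pool.Agent.Helper10.KP
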