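import Pool.Agent.Helper52.KP.StW

/-! Module MLV of project KP: the Monge-Ampere mass of `log (1 + |Y|²) / 2`. -/

set_option autoImplicit false

namespace Pool.Agent.Helper10.KP

open Pool.Agent.Helper52.KP
open MeasureTheory Filter
open scoped ContDiff ComplexOrder Topology

section

variable {m p : ℕ}

private theorem ev_smooth (P : MvPolynomial (Fin m) ℂ) :
    ContDiff ℂ ∞ (fun z : Fin m → ℂ => ev P z) := by
  induction P using MvPolynomial.induction_on with
  | C a => simpa [ev] using contDiff_const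
  | add p q hp hq =>
    have : (fun z : Fin m → ℂ => ev (p + q) z) = fun z => ev p z + ev q z := by
      funext z
      simp [ev]
    rw [this]
    exact hp.add hq
  | mul_X p i hp =>
    have : (fun z : Fin m → ℂ => ev (p * MvPolynomial.X i) z) = fun z => ev p z * z i := by
      funext z
      simp [ev]
    rw [this]
    exact hp.mul (contDiff_apply ℂ ℂ i)

/-- the chain rule for a function of a real function -/
private theorem chain {φ : ℝ → ℝ} {ψ : (Fin m → ℂ) → ℝ} {z : Fin m → ℂ} {φ' : ℝ}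
    (hφ : HasDerivAt φ φ' (ψ z)) (hψ : DifferentiableAt ℝ ψ z) (j : Fin m) :
    dz j (cf (fun x => φ (ψ x))) z = (φ' : ℂ) * dz j (cf ψ) z ∧
      db j (cf (fun x => φ (ψ x))) z = (φ' : ℂ) * db j (cf ψ) z := by
  have h1 : HasFDerivAt (cf ψ) (Complex.ofRealCLM.comp (fderiv ℝ ψ z)) z :=
    Complex.ofRealCLM.hasFDerivAt.comp z hψ.hasFDerivAt
  have h2 : HasFDerivAt (fun x => φ (ψ x)) (φ' • fderiv ℝ ψ z) z :=
    hφ.comp_hasFDerivAt z hψ.hasFDerivAt
  have h3 : HasFDerivAt (cf (fun x => φ (ψ x))) (Complex.ofRealCLM.comp (φ' • fderiv ℝ ψ z)) z :=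
    Complex.ofRealCLM.hasFDerivAt.comp z h2
  have e : ∀ v, fderiv ℝ (cf (fun x => φ (ψ x))) z v = (φ' : ℂ) * fderiv ℝ (cf ψ) z v := by
    intro v
    rw [h3.fderiv, h1.fderiv]
    simp
  unfold dz db
  rw [e, e]
  constructor <;> ring

private theorem dz_sum (g : Fin p → (Fin m → ℂ) → ℂ) (z : Fin m → ℂ)
    (hg : ∀ i, DifferentiableAt ℝ (g i) z) (j : Fin m) :
    dz j (fun z => ∑ i, g i z) z = ∑ i, dz j (g i) z ∧
      db j (fun z => ∑ i, g i z) z = ∑ i, db j (g i) z := by
  have h1 : HasFDerivAt (fun z => ∑ i, g i z) (∑ i, fderiv ℝ (g i) z) z :=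
    HasFDerivAt.fun_sum fun i _ => (hg i).hasFDerivAt
  have e : ∀ v, fderiv ℝ (fun z => ∑ i, g i z) z v = ∑ i, fderiv ℝ (g i) z v := by
    intro v
    rw [h1.fderiv]
    simp only [FunLike.coe_sum, Finset.sum_apply]
  unfold dz db
  rw [e, e]
  constructor
  · rw [← Finset.sum_div, Finset.sum_sub_distrib, Finset.mul_sum]
  · rw [← Finset.sum_div, Finset.sum_add_distrib, Finset.mul_sum]

/-- the derivative of the holomorphic function `f i` -/
private noncomputable def der (f : Fin p → (Fin m → ℂ) → ℂ) (i : Fin p) (j : Fin m)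
    (z : Fin m → ℂ) : ℂ := fderiv ℂ (f i) z (Pi.single j 1)

private theorem der_smooth {f : Fin p → (Fin m → ℂ) → ℂ} (hf : ∀ i, ContDiff ℂ ∞ (f i))
    (i : Fin p) (j : Fin m) : ContDiff ℂ ∞ (der f i j) := by
  have h1 : ContDiff ℂ ∞ (fderiv ℂ (f i)) := (hf i).fderiv_right (m := ∞) (by norm_cast)
  exact h1.clm_apply contDiff_const

private noncomputable def ssq (f : Fin p → (Fin m → ℂ) → ℂ) (z : Fin m → ℂ) : ℝ :=
  ∑ i, ‖f i z‖ ^ 2

private theorem ssq_nn (f : Fin p → (Fin m → ℂ) → ℂ) (z : Fin m → ℂ) : 0 ≤ ssq f z :=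
  Finset.sum_nonneg fun i _ => by positivity

private theorem ssq_smooth {f : Fin p → (Fin m → ℂ) → ℂ} (hf : ∀ i, ContDiff ℂ ∞ (f i)) :
    ContDiff ℝ ∞ (ssq f) := by
  unfold ssq
  refine ContDiff.sum fun i _ => ?_
  exact ((hf i).restrict_scalars ℝ).norm_sq ℝ

private theorem ssq_cf (f : Fin p → (Fin m → ℂ) → ℂ) :
    cf (ssq f) = fun z => ∑ i, f i z * star (f i z) := by
  funext z
  unfold cf ssq
  rw [Complex.ofReal_sum]
  refine Finset.sum_congr rfl fun i _ => ?_
  rw [Complex.star_def, Complex.mul_conj, Complex.normSq_eq_norm_sq]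

private theorem star_diff {g : (Fin m → ℂ) → ℂ} {z : Fin m → ℂ} (hg : DifferentiableAt ℝ g z) :
    DifferentiableAt ℝ (fun z => star (g z)) z :=
  (Complex.conjCLE.differentiableAt).comp z hg

private theorem d_ssq (hCAL : StCAL) {f : Fin p → (Fin m → ℂ) → ℂ}
    (hf : ∀ i, ContDiff ℂ ∞ (f i)) (z : Fin m → ℂ) (j : Fin m) :
    dz j (cf (ssq f)) z = ∑ i, der f i j z * star (f i z) ∧
      db j (cf (ssq f)) z = ∑ i, f i z * star (der f i j z) := by
  have hd : ∀ i, DifferentiableAt ℂ (f i) z := fun i => (hf i).differentiable (by simp) z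
  have hr : ∀ i, DifferentiableAt ℝ (f i) z := fun i => (hd i).restrictScalars ℝ
  have hs : ∀ i, DifferentiableAt ℝ (fun z => star (f i z)) z := fun i => star_diff (hr i)
  have hm : ∀ i, DifferentiableAt ℝ (fun z => f i z * star (f i z)) z := fun i =>
    (hr i).mul (hs i)
  rw [ssq_cf, (dz_sum _ z hm j).1, (dz_sum _ z hm j).2]
  constructor
  · refine Finset.sum_congr rfl fun i _ => ?_
    have c1 := ((hCAL m j j (f i) (fun z => star (f i z)) z).1 (hr i) (hs i)).2.2.1
    have c2 := ((hCAL m j j (f i) (f i) z).1 (hr i) (hr i)).2.2.2.2.1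
    have c3 := (hCAL m j j (f i) (f i) z).2.2.1 (hd i)
    rw [c1, c2, c3.1, c3.2, star_zero, mul_zero, add_zero]
    rfl
  · refine Finset.sum_congr rfl fun i _ => ?_
    have c1 := ((hCAL m j j (f i) (fun z => star (f i z)) z).1 (hr i) (hs i)).2.2.2.1
    have c2 := ((hCAL m j j (f i) (f i) z).1 (hr i) (hr i)).2.2.2.2.2.1
    have c3 := (hCAL m j j (f i) (f i) z).2.2.1 (hd i)
    rw [c1, c2, c3.1, c3.2, zero_mul, zero_add]
    rfl

/-- the weight -/
private noncomputable def lw (f : Fin p → (Fin m → ℂ) → ℂ) (x : Fin m → ℂ) : ℝ :=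
  Real.log (1 + ssq f x) / 2

private noncomputable def k1 (s : ℝ) : ℝ := 1 / 2 * (1 + s)⁻¹

private noncomputable def k2 (s : ℝ) : ℝ := -(1 / 2 * ((1 + s) ^ 2)⁻¹)

private theorem hes_lw (hCAL : StCAL) {f : Fin p → (Fin m → ℂ) → ℂ}
    (hf : ∀ i, ContDiff ℂ ∞ (f i)) (z : Fin m → ℂ) (j k : Fin m) :
    hes (lw f) z j k = (k2 (ssq f z) : ℂ) * (∑ i, der f i j z * star (f i z)) *
        (∑ i, f i z * star (der f i k z)) +
      (k1 (ssq f z) : ℂ) * ∑ i, der f i j z * star (der f i k z) := by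
  have hS : ∀ z, DifferentiableAt ℝ (ssq f) z := fun z => (ssq_smooth hf).differentiable (by simp) z
  have h1 : db k (cf (lw f)) = fun z => cf (fun x => k1 (ssq f x)) z *
      ∑ i, f i z * star (der f i k z) := by
    funext z
    have hp : 0 < 1 + ssq f z := by linarith [ssq_nn f z]
    have h2 : HasDerivAt (fun s : ℝ => Real.log (1 + s) / 2) (k1 (ssq f z)) (ssq f z) := by
      have h3 : HasDerivAt (fun s : ℝ => 1 + s) 1 (ssq f z) := by
        simpa using (hasDerivAt_id (ssq f z)).const_add 1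
      have h4 := (h3.log hp.ne').div_const 2
      refine h4.congr_deriv ?_
      unfold k1
      field_simp
    have h5 := (chain h2 (hS z) k).2
    rw [(d_ssq hCAL hf z k).2] at h5
    exact h5
  show dz j (db k (cf (lw f))) z = _
  rw [h1]
  have hp : 0 < 1 + ssq f z := by linarith [ssq_nn f z]
  have h2 : HasDerivAt k1 (k2 (ssq f z)) (ssq f z) := by
    have h3 : HasDerivAt (fun s : ℝ => 1 + s) 1 (ssq f z) := by
      simpa using (hasDerivAt_id (ssq f z)).const_add 1
    have h4 := (h3.fun_inv hp.ne').const_mul (1 / 2)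
    refine h4.congr_deriv ?_
    unfold k2
    rw [neg_div, one_div, one_div]
    ring
  have hk1d : DifferentiableAt ℝ (cf (fun x => k1 (ssq f x))) z := by
    have h3 : DifferentiableAt ℝ (fun x => k1 (ssq f x)) z :=
      (h2.comp_hasFDerivAt z (hS z).hasFDerivAt).differentiableAt
    exact Complex.ofRealCLM.differentiableAt.comp z h3
  have hd : ∀ i, DifferentiableAt ℂ (f i) z := fun i => (hf i).differentiable (by simp) z
  have hr : ∀ i, DifferentiableAt ℝ (f i) z := fun i => (hd i).restrictScalars ℝ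
  have hda : ∀ i, DifferentiableAt ℂ (der f i k) z := fun i =>
    (der_smooth hf i k).differentiable (by simp) z
  have hra : ∀ i, DifferentiableAt ℝ (der f i k) z := fun i => (hda i).restrictScalars ℝ
  have hsa : ∀ i, DifferentiableAt ℝ (fun z => star (der f i k z)) z := fun i =>
    star_diff (hra i)
  have hm : ∀ i, DifferentiableAt ℝ (fun z => f i z * star (der f i k z)) z := fun i =>
    (hr i).mul (hsa i)
  have hq : DifferentiableAt ℝ (fun z => ∑ i, f i z * star (der f i k z)) z :=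
    DifferentiableAt.fun_sum fun i _ => hm i
  have c0 := ((hCAL m j j (cf (fun x => k1 (ssq f x)))
    (fun z => ∑ i, f i z * star (der f i k z)) z).1 hk1d hq).2.2.1
  rw [c0, (chain h2 (hS z) j).1, (d_ssq hCAL hf z j).1, (dz_sum _ z hm j).1]
  have c1 : ∀ i, dz j (fun z => f i z * star (der f i k z)) z
      = der f i j z * star (der f i k z) := by
    intro i
    have d1 := ((hCAL m j j (f i) (fun z => star (der f i k z)) z).1 (hr i) (hsa i)).2.2.1
    have d2 := ((hCAL m j j (der f i k) (der f i k) z).1 (hra i) (hra i)).2.2.2.2.1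
    have d3 := (hCAL m j j (der f i k) (der f i k) z).2.2.1 (hda i)
    have d4 := (hCAL m j j (f i) (f i) z).2.2.1 (hd i)
    rw [d1, d2, d3.1, d4.2, star_zero, mul_zero, add_zero]
    rfl
  rw [Finset.sum_congr rfl fun i _ => c1 i]
  rfl

/-- the Hessian is positive semidefinite -/
private theorem psd_lw (hCAL : StCAL) {f : Fin p → (Fin m → ℂ) → ℂ}
    (hf : ∀ i, ContDiff ℂ ∞ (f i)) (z : Fin m → ℂ) : Psd (hes (lw f) z) := by
  constructor
  · ext j k
    rw [Matrix.conjTranspose_apply, hes_lw hCAL hf, hes_lw hCAL hf]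
    simp only [star_add, star_mul', star_sum, Complex.star_def, Complex.conj_ofReal,
      Complex.conj_conj]
    have e1 : ∑ x, (starRingEnd ℂ) (der f x k z) * f x z
        = ∑ x, f x z * (starRingEnd ℂ) (der f x k z) :=
      Finset.sum_congr rfl fun x _ => mul_comm _ _
    have e2 : ∑ x, (starRingEnd ℂ) (f x z) * der f x j z
        = ∑ x, der f x j z * (starRingEnd ℂ) (f x z) :=
      Finset.sum_congr rfl fun x _ => mul_comm _ _
    have e3 : ∑ x, (starRingEnd ℂ) (der f x k z) * der f x j z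
        = ∑ x, der f x j z * (starRingEnd ℂ) (der f x k z) :=
      Finset.sum_congr rfl fun x _ => mul_comm _ _
    rw [e1, e2, e3]
    ring
  · intro ξ
    obtain ⟨η, hη⟩ : ∃ η : Fin p → ℂ, η = fun i => ∑ j, der f i j z * ξ j := ⟨_, rfl⟩
    have hsp : 0 < 1 + ssq f z := by linarith [ssq_nn f z]
    have e1 : ∑ j, ∑ k, hes (lw f) z j k * ξ j * star (ξ k)
        = (k2 (ssq f z) : ℂ) * ((∑ i, η i * star (f i z)) * star (∑ i, η i * star (f i z)))
          + (k1 (ssq f z) : ℂ) * ∑ i, η i * star (η i) := by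
      have a1 : ∑ i, η i * star (f i z) = ∑ j, (∑ i, der f i j z * star (f i z)) * ξ j := by
        rw [hη]
        simp only [Finset.sum_mul]
        rw [Finset.sum_comm]
        exact Finset.sum_congr rfl fun j _ => Finset.sum_congr rfl fun i _ => by ring
      have a2 : star (∑ i, η i * star (f i z))
          = ∑ k, (∑ i, f i z * star (der f i k z)) * star (ξ k) := by
        rw [hη]
        simp only [star_sum, star_mul', star_star, Finset.sum_mul]
        rw [Finset.sum_comm]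
        exact Finset.sum_congr rfl fun j _ => Finset.sum_congr rfl fun i _ => by ring
      have a3 : ∑ i, η i * star (η i)
          = ∑ j, ∑ k, (∑ i, der f i j z * star (der f i k z)) * ξ j * star (ξ k) := by
        calc ∑ i, η i * star (η i)
            = ∑ i, ∑ j, ∑ k, (der f i j z * ξ j) * star (der f i k z * ξ k) := by
              refine Finset.sum_congr rfl fun i _ => ?_
              rw [hη]
              show (∑ j, der f i j z * ξ j) * star (∑ k, der f i k z * ξ k) = _
              rw [star_sum, Finset.sum_mul_sum]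
          _ = ∑ j, ∑ k, ∑ i, (der f i j z * ξ j) * star (der f i k z * ξ k) := by
              rw [Finset.sum_comm]
              refine Finset.sum_congr rfl fun j _ => ?_
              rw [Finset.sum_comm]
          _ = _ := by
              refine Finset.sum_congr rfl fun j _ => Finset.sum_congr rfl fun k _ => ?_
              rw [Finset.sum_mul, Finset.sum_mul]
              refine Finset.sum_congr rfl fun i _ => ?_
              rw [star_mul']
              ring
      rw [a2, a1, a3, Finset.sum_mul, Finset.mul_sum, Finset.mul_sum, ← Finset.sum_add_distrib]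
      refine Finset.sum_congr rfl fun j _ => ?_
      rw [Finset.mul_sum, Finset.mul_sum, Finset.mul_sum, ← Finset.sum_add_distrib]
      refine Finset.sum_congr rfl fun k _ => ?_
      rw [hes_lw hCAL hf]
      ring
    have e2 : ∑ i, η i * star (η i) = ((∑ i, ‖η i‖ ^ 2 : ℝ) : ℂ) := by
      rw [Complex.ofReal_sum]
      refine Finset.sum_congr rfl fun i _ => ?_
      rw [Complex.star_def, Complex.mul_conj, Complex.normSq_eq_norm_sq]
    have e3 : (∑ i, η i * star (f i z)) * star (∑ i, η i * star (f i z))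
        = ((‖∑ i, η i * star (f i z)‖ ^ 2 : ℝ) : ℂ) := by
      rw [Complex.star_def, Complex.mul_conj, Complex.normSq_eq_norm_sq]
    show 0 ≤ (∑ j, ∑ k, hes (lw f) z j k * ξ j * star (ξ k)).re
    rw [e1, e2, e3, ← Complex.ofReal_mul, ← Complex.ofReal_mul, ← Complex.ofReal_add,
      Complex.ofReal_re]
    have cs : ‖∑ i, η i * star (f i z)‖ ^ 2 ≤ (∑ i, ‖η i‖ ^ 2) * ssq f z := by
      have b1 : ‖∑ i, η i * star (f i z)‖ ≤ ∑ i, ‖η i‖ * ‖f i z‖ := by
        refine (norm_sum_le _ _).trans (le_of_eq ?_)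
        refine Finset.sum_congr rfl fun i _ => ?_
        rw [norm_mul, norm_star]
      have b2 : (∑ i, ‖η i‖ * ‖f i z‖) ^ 2 ≤ (∑ i, ‖η i‖ ^ 2) * ∑ i, ‖f i z‖ ^ 2 :=
        Finset.sum_mul_sq_le_sq_mul_sq _ _ _
      exact (pow_le_pow_left₀ (norm_nonneg _) b1 2).trans b2
    obtain ⟨N, hN⟩ : ∃ N, N = ∑ i, ‖η i‖ ^ 2 := ⟨_, rfl⟩
    have hN0 : 0 ≤ N := by rw [hN]; exact Finset.sum_nonneg fun i _ => by positivity
    obtain ⟨s, hs⟩ : ∃ s, s = ssq f z := ⟨_, rfl⟩
    rw [← hN, ← hs] at cs ⊢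
    rw [← hs] at hsp
    unfold k1 k2
    have hle : ‖∑ i, η i * star (f i z)‖ ^ 2 ≤ N * (1 + s) := by linarith
    have h6 : 1 / 2 * ((1 + s) ^ 2)⁻¹ * ‖∑ i, η i * star (f i z)‖ ^ 2
        ≤ 1 / 2 * ((1 + s) ^ 2)⁻¹ * (N * (1 + s)) :=
      mul_le_mul_of_nonneg_left hle (by positivity)
    have h7 : 1 / 2 * ((1 + s) ^ 2)⁻¹ * (N * (1 + s)) = 1 / 2 * (1 + s)⁻¹ * N := by
      field_simp
    linarith

end

section

variable {m : ℕ}

private theorem det_lw (hCAL : StCAL) {f : Fin m → (Fin m → ℂ) → ℂ}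
    (hf : ∀ i, ContDiff ℂ ∞ (f i)) (z : Fin m → ℂ) :
    (hes (lw f) z).det = (((1 / 2) ^ m * ((1 + ssq f z) ^ (m + 1))⁻¹ *
      ‖(Matrix.of fun i j => der f i j z : Matrix (Fin m) (Fin m) ℂ).det‖ ^ 2 : ℝ) : ℂ) := by
  obtain ⟨A, hA⟩ : ∃ A : Matrix (Fin m) (Fin m) ℂ, A = Matrix.of fun i j => der f i j z :=
    ⟨_, rfl⟩
  obtain ⟨s, hs⟩ : ∃ s, s = ssq f z := ⟨_, rfl⟩
  have hsp : 0 < 1 + s := by rw [hs]; linarith [ssq_nn f z]
  have hspc : (1 + (s : ℂ)) ≠ 0 := by exact_mod_cast hsp.ne'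
  obtain ⟨B, hB⟩ : ∃ B : Matrix (Fin m) (Fin m) ℂ, B = 1 + Matrix.replicateCol Unit
      (fun i => (-((1 + s)⁻¹ : ℝ) : ℂ) * star (f i z)) *
        Matrix.replicateRow Unit (fun i => f i z) := ⟨_, rfl⟩
  have hBdet : B.det = ((1 + s)⁻¹ : ℝ) := by
    rw [hB, Matrix.det_one_add_replicateCol_mul_replicateRow]
    have e1 : (fun i => f i z) ⬝ᵥ (fun i => (-((1 + s)⁻¹ : ℝ) : ℂ) * star (f i z))
        = (-((1 + s)⁻¹ : ℝ) : ℂ) * ((ssq f z : ℝ) : ℂ) := by
      have e2 := congrFun (ssq_cf f) z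
      unfold cf at e2
      rw [e2, Finset.mul_sum]
      refine Finset.sum_congr rfl fun i _ => ?_
      ring
    rw [e1, ← hs]
    push_cast
    field_simp
    ring
  have hfac : hes (lw f) z = A.transpose * (((k1 s : ℝ) : ℂ) • B) *
      (A.map (starRingEnd ℂ)) := by
    ext j k
    rw [hes_lw hCAL hf, ← hs]
    have e1 : (A.transpose * (((k1 s : ℝ) : ℂ) • B) * (A.map (starRingEnd ℂ))) j k
        = ∑ l, ∑ i, A i j * ((k1 s : ℂ) * ((if i = l then 1 else 0) +
          (-((1 + s)⁻¹ : ℝ) : ℂ) * star (f i z) * f l z)) * star (A l k) := by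
      rw [Matrix.mul_apply]
      refine Finset.sum_congr rfl fun l _ => ?_
      rw [Matrix.mul_apply, Finset.sum_mul]
      refine Finset.sum_congr rfl fun i _ => ?_
      rw [hB]
      simp only [Matrix.transpose_apply, Matrix.smul_apply, Matrix.add_apply, Matrix.one_apply,
        Matrix.mul_apply, Matrix.replicateCol_apply, Matrix.replicateRow_apply,
        Finset.univ_unique, Finset.sum_singleton, smul_eq_mul, Matrix.map_apply]
      rfl
    rw [e1]
    have e2 : ∀ l, ∑ i, A i j * ((k1 s : ℂ) * ((if i = l then 1 else 0) +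
          (-((1 + s)⁻¹ : ℝ) : ℂ) * star (f i z) * f l z)) * star (A l k)
        = (k1 s : ℂ) * (A l j * star (A l k)) +
          (k2 s : ℂ) * (∑ i, A i j * star (f i z)) * (f l z * star (A l k)) := by
      intro l
      have e3 : ∀ i, A i j * ((k1 s : ℂ) * ((if i = l then 1 else 0) +
          (-((1 + s)⁻¹ : ℝ) : ℂ) * star (f i z) * f l z)) * star (A l k)
          = (if i = l then (k1 s : ℂ) * (A i j * star (A l k)) else 0) +
            (k2 s : ℂ) * (A i j * star (f i z)) * (f l z * star (A l k)) := by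
        intro i
        have e4 : (k1 s : ℂ) * (-((1 + s)⁻¹ : ℝ) : ℂ) = (k2 s : ℂ) := by
          unfold k1 k2
          push_cast
          field_simp
        split_ifs
        · rw [← e4]; ring
        · rw [← e4]; ring
      rw [Finset.sum_congr rfl fun i _ => e3 i, Finset.sum_add_distrib, Finset.sum_ite_eq',
        ← Finset.sum_mul, ← Finset.mul_sum]
      simp
    rw [Finset.sum_congr rfl fun l _ => e2 l, Finset.sum_add_distrib, ← Finset.mul_sum,
      ← Finset.mul_sum, hA]
    simp only [Matrix.of_apply]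
    ring
  rw [hfac, Matrix.det_mul, Matrix.det_mul, Matrix.det_transpose, Matrix.det_smul, hBdet,
    Fintype.card_fin]
  have e5 : (A.map (starRingEnd ℂ)).det = star A.det := by
    have := RingHom.map_det (starRingEnd ℂ) A
    rw [Complex.star_def, this]
    rfl
  rw [e5]
  have e6 : A.det * star A.det = ((‖A.det‖ ^ 2 : ℝ) : ℂ) := by
    rw [Complex.star_def, Complex.mul_conj, Complex.normSq_eq_norm_sq]
  calc A.det * (((k1 s : ℝ) : ℂ) ^ m * (((1 + s)⁻¹ : ℝ) : ℂ)) * star A.det
      = ((k1 s : ℝ) : ℂ) ^ m * (((1 + s)⁻¹ : ℝ) : ℂ) * (A.det * star A.det) := by ring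
    _ = (((k1 s) ^ m * (1 + s)⁻¹ * ‖A.det‖ ^ 2 : ℝ) : ℂ) := by
        rw [e6]
        push_cast
        ring
    _ = _ := by
        rw [← hs, ← hA]
        congr 1
        unfold k1
        rw [mul_pow, inv_pow, pow_succ (1 + s) m, mul_inv]
        ring

end

theorem hMLV (hARE : StARE) (hILG : StILG) (hCAL : StCAL) : StMLV := by
  intro C hC
  obtain ⟨f, hf⟩ : ∃ f : Fin C.m → (Fin C.m → ℂ) → ℂ, f = fun i z => ev (C.Y i) z := ⟨_, rfl⟩
  have hfs : ∀ i, ContDiff ℂ ∞ (f i) := fun i => by rw [hf]; exact ev_smooth _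
  have hlw : (fun x => Real.log (1 + ∑ i, ‖ev (C.Y i) x‖ ^ 2) / 2) = lw f := by
    rw [hf]
    rfl
  rw [hlw]
  refine ⟨fun z => psd_lw hCAL hfs z, ?_⟩
  have hUo : IsOpen C.U := by
    have h1 : Continuous (fun z : Fin C.m → ℂ => ev C.Δ z) := (ev_smooth C.Δ).continuous
    exact isOpen_ne_fun h1 continuous_const
  obtain ⟨Y, hY⟩ : ∃ Y : (Fin C.m → ℂ) → (Fin C.m → ℂ), Y = fun z i => f i z := ⟨_, rfl⟩
  have hYd : Differentiable ℂ Y := by
    rw [hY, differentiable_pi]
    exact fun i => (hfs i).differentiable (by simp)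
  obtain ⟨g, hg⟩ : ∃ g : (Fin C.m → ℂ) → ENNReal, g = fun y =>
      ENNReal.ofReal ((1 / 2) ^ C.m * ((1 + Pool.Agent.Helper52.KP.sq y) ^ (C.m + 1))⁻¹) :=
    ⟨_, rfl⟩
  have hgm : Measurable g := by
    rw [hg]
    refine ENNReal.measurable_ofReal.comp ?_
    refine measurable_const.mul (Measurable.inv ?_)
    refine Measurable.pow_const ?_ _
    refine measurable_const.add ?_
    unfold Pool.Agent.Helper52.KP.sq
    exact Finset.measurable_sum _ fun j _ => ((measurable_pi_apply j).norm).pow_const 2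
  have key := hARE C.m C.U hUo Y hYd.differentiableOn C.U (le_refl _) hUo.measurableSet g hgm
  have hint : ∀ z, ENNReal.ofReal (hes (lw f) z).det.re
      = g (Y z) * ENNReal.ofReal (‖(fderiv ℂ Y z).det‖ ^ 2) := by
    intro z
    rw [det_lw hCAL hfs z, Complex.ofReal_re, hg]
    have e1 : Pool.Agent.Helper52.KP.sq (Y z) = ssq f z := by
      rw [hY]
      rfl
    have e2 : (fderiv ℂ Y z).det
        = (Matrix.of fun i j => der f i j z : Matrix (Fin C.m) (Fin C.m) ℂ).det := by
      have e3 : (fderiv ℂ Y z).det = LinearMap.det ((fderiv ℂ Y z : (Fin C.m → ℂ) →L[ℂ]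
        (Fin C.m → ℂ)) : (Fin C.m → ℂ) →ₗ[ℂ] (Fin C.m → ℂ)) := rfl
      rw [e3, ← LinearMap.det_toMatrix']
      congr 1
      ext i j
      rw [LinearMap.toMatrix'_apply, Matrix.of_apply]
      unfold der
      rw [hY]
      have e4 : HasFDerivAt (fun z i => f i z)
          (ContinuousLinearMap.pi fun i => fderiv ℂ (f i) z) z :=
        hasFDerivAt_pi.2 fun i => ((hfs i).differentiable (by simp) z).hasFDerivAt
      rw [e4.fderiv]
      simp
    show ENNReal.ofReal _ = ENNReal.ofReal _ * ENNReal.ofReal _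
    rw [e1, e2, ← ENNReal.ofReal_mul]
    have := ssq_nn f z
    positivity
  rw [lintegral_congr fun z => hint z, key]
  have hcard : ∀ᵐ v : Fin C.m → ℂ, g v * ENat.toENNReal {z | z ∈ C.U ∧ Y z = v}.encard
      = g v * (C.rd : ENNReal) := by
    filter_upwards [hC.Ycard] with v hv
    congr 1
    have h1 : {z | z ∈ C.U ∧ Y z = v} = {z | z ∈ C.U ∧ ∀ i, ev (C.Y i) z = v i} := by
      ext z
      simp only [Set.mem_ofPred_eq]
      rw [hY, hf, funext_iff]
    rw [h1]
    have h2 : {z | z ∈ C.U ∧ ∀ i, ev (C.Y i) z = v i}.Finite := by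
      apply Set.finite_of_ncard_ne_zero
      rw [hv]
      exact hC.rd0.ne'
    rw [← h2.cast_ncard_eq, hv]
    rfl
  rw [lintegral_congr_ae hcard, lintegral_mul_const _ hgm, hg, hILG C.m]
  rw [mul_comm, ← ENNReal.ofReal_natCast, ← ENNReal.ofReal_mul (Nat.cast_nonneg _)]
  congr 1
  ring

end Pool.Agent.Helper10.KP
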