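import Pool.Agent.Helper52.KP.StM

/-! Module UPB of project KP: growth of the partition function. -/

set_option autoImplicit false

namespace Pool.Agent.Helper10.KP

open Pool.Agent.Helper52.KP
open MeasureTheory Filter
open scoped ContDiff ComplexOrder Topology

/-- change of variables for the scaling (from `Pool/Agent/Helper29/KP/M_SCA.lean`) -/
private theorem scal_lint {m : ℕ} (w : Fin m → ℕ) {r : ℝ} (hr : 0 < r)
    (f : (Fin m → ℂ) → ENNReal) (hf : Measurable f) :
    ∫⁻ z, f z = ENNReal.ofReal (r ^ (2 * ∑ j, w j)) * ∫⁻ z, f (scl w (r : ℂ) z) := by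
  obtain ⟨L, hLd⟩ : ∃ L : (Fin m → ℂ) →ₗ[ℝ] (Fin m → ℂ), L =
    (Matrix.toLin' (Matrix.diagonal fun j => (r : ℂ) ^ w j)).restrictScalars ℝ := ⟨_, rfl⟩
  have hL : ∀ z, L z = scl w (r : ℂ) z := by
    intro z
    ext j
    rw [hLd]
    simp [scl, Matrix.mulVec_diagonal]
  have hdet : LinearMap.det L = r ^ (2 * ∑ j, w j) := by
    rw [hLd, LinearMap.det_restrictScalars, LinearMap.det_toLin', Matrix.det_diagonal,
      Algebra.norm_complex_apply, Finset.prod_pow_eq_pow_sum, Complex.normSq_eq_norm_sq, norm_pow,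
      Complex.norm_real, Real.norm_of_nonneg hr.le, ← pow_mul, mul_comm]
  have hpos : 0 < r ^ (2 * ∑ j, w j) := by positivity
  have hmap := Measure.map_linearMap_addHaar_eq_smul_addHaar (volume : Measure (Fin m → ℂ))
    (f := L) (by rw [hdet]; exact hpos.ne')
  have hLm : Measurable L := (LinearMap.continuous_of_finiteDimensional L).measurable
  have h1 : ∫⁻ z, f (scl w (r : ℂ) z) = ∫⁻ z, f z ∂(Measure.map L volume) := by
    rw [lintegral_map hf hLm]
    simp_rw [hL]
  rw [h1, hmap, lintegral_smul_measure, hdet, smul_eq_mul, ← mul_assoc,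
    ← ENNReal.ofReal_mul hpos.le, abs_of_pos (inv_pos.2 hpos), mul_inv_cancel₀ hpos.ne',
    ENNReal.ofReal_one, one_mul]

theorem hUPB (hDIF : StDIF) : StUPB := by
  intro C hC D N hD s lam L hs hL t ht
  have hD' : (0 : ℝ) < D := by exact_mod_cast hD
  obtain ⟨r, hrd⟩ : ∃ r : ℝ, r = Real.exp (t * L / (2 * D)) := ⟨_, rfl⟩
  have hr : 0 < r := by rw [hrd]; exact Real.exp_pos _
  have hrD : r ^ (2 * D) = Real.exp (t * L) := by
    rw [hrd, ← Real.exp_nat_mul]
    congr 1
    push_cast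
    field_simp
  have hrm : r ^ C.m = Real.exp (t * L * C.m / (2 * D)) := by
    rw [hrd, ← Real.exp_nat_mul]
    congr 1
    ring
  have hrc : (r : ℂ) ≠ 0 := by exact_mod_cast hr.ne'
  have hnr : ‖(r : ℂ)‖ = r := by rw [Complex.norm_real, Real.norm_of_nonneg hr.le]
  have hmem : ∀ j, s j ∈ C.R D := fun j => by
    rw [← hs]
    exact Submodule.subset_span ⟨j, rfl⟩
  have hscal : ∀ z, PP s lam 0 (scl C.w (r : ℂ) z) = r ^ (2 * D) * PP s lam 0 z := by
    intro z
    unfold PP
    rw [Finset.mul_sum]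
    refine Finset.sum_congr rfl fun j _ => ?_
    rw [hC.hom D (s j) (hmem j), norm_mul, norm_pow, hnr]
    ring
  have hcmp : ∀ z, PP s lam t z ≤ r ^ (2 * D) * PP s lam 0 z := by
    intro z
    unfold PP
    rw [Finset.mul_sum]
    refine Finset.sum_le_sum fun j _ => ?_
    rw [hrD, zero_mul, Real.exp_zero, one_mul]
    refine mul_le_mul_of_nonneg_right (Real.exp_le_exp.2 ?_) (by positivity)
    exact mul_le_mul_of_nonneg_left (by exact_mod_cast hL j) ht
  have hU2 : ∀ z, scl C.w (r : ℂ) z ∈ C.U → z ∈ C.U := by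
    intro z h
    have h2 := hC.sclU ((r : ℂ)⁻¹) (inv_ne_zero hrc) _ h
    have h3 : scl C.w ((r : ℂ)⁻¹) (scl C.w (r : ℂ) z) = z := by
      ext j
      simp only [scl]
      rw [← mul_assoc, ← mul_pow, inv_mul_cancel₀ hrc, one_pow, one_mul]
    rwa [h3] at h2
  have hUm : MeasurableSet C.U := by
    have h : Continuous fun z : Fin C.m → ℂ => ev C.Δ z := MvPolynomial.continuous_eval _
    exact (isOpen_ne_fun h continuous_const).measurableSet
  have hJc : Continuous fun z : Fin C.m → ℂ => ev C.J z := MvPolynomial.continuous_eval _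
  have hsc : ∀ j, Continuous fun z : Fin C.m → ℂ => ev (s j) z := fun j =>
    MvPolynomial.continuous_eval _
  -- the integrands
  obtain ⟨h, hh⟩ : ∃ h : ℝ → (Fin C.m → ℂ) → ℝ,
      h = fun t z => Real.exp (-PP s lam t z) * ‖ev C.J z‖ ^ 2 := ⟨_, rfl⟩
  have hhc : ∀ t, Continuous (h t) := by
    intro t
    rw [hh]
    have h1 : Continuous (fun z => PP s lam t z) := by
      unfold PP
      exact continuous_finsetSum _ fun j _ => continuous_const.mul ((hsc j).norm.pow 2)
    exact (Real.continuous_exp.comp h1.neg).mul (hJc.norm.pow 2)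
  have hh0 : ∀ t z, 0 ≤ h t z := fun t z => by rw [hh]; positivity
  have hhi : ∀ t, IntegrableOn (h t) C.U := by
    intro t
    have h1 := (hDIF C hC D N hD s lam hs t).2.1 0
    have h2 : h t = fun z => (1 / 2 : ℝ) * ((1 + C.sz z ^ 0) * Real.exp (-PP s lam t z) *
        ‖ev C.J z‖ ^ 2) := by
      funext z
      rw [hh, pow_zero]
      ring
    rw [h2]
    exact h1.const_mul _
  have hZ : ∀ t, C.ZZ s lam t = ∫ z in C.U, h t z := fun t => by rw [hh]; rfl
  have hI : ∀ t, ENNReal.ofReal (C.ZZ s lam t) = ∫⁻ z in C.U, ENNReal.ofReal (h t z) := by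
    intro t
    rw [hZ]
    exact ofReal_integral_eq_lintegral_ofReal (hhi t) (Eventually.of_forall (hh0 t))
  have hZ0 : ∀ t, 0 ≤ C.ZZ s lam t := fun t => by
    rw [hZ]
    exact integral_nonneg (hh0 t)
  have hfm : Measurable (C.U.indicator fun z => ENNReal.ofReal (h 0 z)) :=
    (ENNReal.measurable_ofReal.comp (hhc 0).measurable).indicator hUm
  have key : ENNReal.ofReal (C.ZZ s lam 0) ≤ ENNReal.ofReal (r ^ C.m * C.ZZ s lam t) := by
    rw [hI, ENNReal.ofReal_mul (by positivity), hI, ← lintegral_indicator hUm,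
      scal_lint C.w hr _ hfm, ← lintegral_indicator hUm]
    have e1 : ENNReal.ofReal (r ^ C.m)
        = ENNReal.ofReal (r ^ (2 * ∑ j, C.w j)) * ENNReal.ofReal (r ^ (2 * C.jd)) := by
      rw [← ENNReal.ofReal_mul (by positivity), ← pow_add]
      congr 2
      have := hC.deg
      have := hC.hm
      omega
    rw [e1, mul_assoc]
    refine mul_le_mul_right ?_ _
    rw [← lintegral_const_mul' _ _ ENNReal.ofReal_ne_top]
    refine lintegral_mono fun z => ?_
    by_cases hz : scl C.w (r : ℂ) z ∈ C.U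
    · rw [Set.indicator_of_mem hz, Set.indicator_of_mem (hU2 z hz),
        ← ENNReal.ofReal_mul (by positivity)]
      refine ENNReal.ofReal_le_ofReal ?_
      rw [hh]
      show Real.exp (-PP s lam 0 (scl C.w (r : ℂ) z)) * ‖ev C.J (scl C.w (r : ℂ) z)‖ ^ 2
        ≤ r ^ (2 * C.jd) * (Real.exp (-PP s lam t z) * ‖ev C.J z‖ ^ 2)
      rw [hscal, hC.Jhom, norm_mul, norm_pow, hnr]
      have e2 : Real.exp (-(r ^ (2 * D) * PP s lam 0 z)) ≤ Real.exp (-PP s lam t z) :=
        Real.exp_le_exp.2 (neg_le_neg (hcmp z))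
      calc Real.exp (-(r ^ (2 * D) * PP s lam 0 z)) * (r ^ C.jd * ‖ev C.J z‖) ^ 2
          ≤ Real.exp (-PP s lam t z) * (r ^ C.jd * ‖ev C.J z‖) ^ 2 :=
            mul_le_mul_of_nonneg_right e2 (by positivity)
        _ = _ := by ring
    · rw [Set.indicator_of_notMem hz]
      exact bot_le
  have key2 : C.ZZ s lam 0 ≤ r ^ C.m * C.ZZ s lam t :=
    (ENNReal.ofReal_le_ofReal_iff (mul_nonneg (by positivity) (hZ0 t))).1 key
  rw [Real.exp_neg, ← hrm]
  rw [← div_eq_mul_inv, div_le_iff₀ (by positivity), mul_comm]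
  exact key2

end Pool.Agent.Helper10.KP
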