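import Pool.Agent.Helper52.KP.StL

/-! Module VAR of project KP: the variance inequality for a plurisubharmonic weight. -/

set_option autoImplicit false

namespace Pool.Agent.Helper10.KP

open Pool.Agent.Helper52.KP
open MeasureTheory Filter
open scoped ContDiff ComplexOrder Topology

section

variable {m : ℕ}

private theorem sq_nn (ξ : Fin m → ℂ) : 0 ≤ Pool.Agent.Helper52.KP.sq ξ :=
  Finset.sum_nonneg fun j _ => by positivity

private theorem sq_smooth : ContDiff ℝ ∞ (fun z : Fin m → ℂ => Pool.Agent.Helper52.KP.sq z) := by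
  unfold Pool.Agent.Helper52.KP.sq
  refine ContDiff.sum fun j _ => ?_
  exact (contDiff_apply ℝ ℂ j).norm_sq ℝ

/-- the perturbed weight -/
private noncomputable def pt (ψ : (Fin m → ℂ) → ℝ) (δ : ℝ) (z : Fin m → ℂ) : ℝ := ψ z + δ * Pool.Agent.Helper52.KP.sq z

private theorem pt_smooth {ψ : (Fin m → ℂ) → ℝ} (hψ : ContDiff ℝ ∞ ψ) (δ : ℝ) :
    ContDiff ℝ ∞ (pt ψ δ) := hψ.add (contDiff_const.mul sq_smooth)

private theorem fd_cf {ψ : (Fin m → ℂ) → ℝ} {z : Fin m → ℂ} (h : DifferentiableAt ℝ ψ z)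
    (v : Fin m → ℂ) : fderiv ℝ (cf ψ) z v = ((fderiv ℝ ψ z v : ℝ) : ℂ) := by
  have h1 : HasFDerivAt (cf ψ) (Complex.ofRealCLM.comp (fderiv ℝ ψ z)) z :=
    Complex.ofRealCLM.hasFDerivAt.comp z h.hasFDerivAt
  rw [h1.fderiv]
  rfl

private theorem fd_sq (z v : Fin m → ℂ) :
    fderiv ℝ (fun z : Fin m → ℂ => Pool.Agent.Helper52.KP.sq z) z v = ∑ j, 2 * (inner ℝ (z j) (v j) : ℝ) := by
  have h1 : ∀ j : Fin m, HasFDerivAt (fun z : Fin m → ℂ => ‖z j‖ ^ 2)
      (2 • (innerSL ℝ (z j)).comp (ContinuousLinearMap.proj j : (Fin m → ℂ) →L[ℝ] ℂ)) z :=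
    fun j => ((ContinuousLinearMap.proj j : (Fin m → ℂ) →L[ℝ] ℂ).hasFDerivAt).norm_sq
  have h2 : HasFDerivAt (fun z : Fin m → ℂ => Pool.Agent.Helper52.KP.sq z)
      (∑ j, 2 • (innerSL ℝ (z j)).comp (ContinuousLinearMap.proj j : (Fin m → ℂ) →L[ℝ] ℂ)) z := by
    unfold Pool.Agent.Helper52.KP.sq
    exact HasFDerivAt.fun_sum fun j _ => h1 j
  rw [h2.fderiv]
  simp only [FunLike.coe_sum, Finset.sum_apply]
  refine Finset.sum_congr rfl fun j _ => ?_
  show (2 • ((inner ℝ (z j) (v j) : ℝ))) = _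
  rw [nsmul_eq_mul]
  norm_num

private theorem fd_pt {ψ : (Fin m → ℂ) → ℝ} {z : Fin m → ℂ} (h : DifferentiableAt ℝ ψ z) (δ : ℝ)
    (v : Fin m → ℂ) : fderiv ℝ (pt ψ δ) z v
      = fderiv ℝ ψ z v + δ * ∑ j, 2 * (inner ℝ (z j) (v j) : ℝ) := by
  have h1 : HasFDerivAt (fun z : Fin m → ℂ => Pool.Agent.Helper52.KP.sq z) (fderiv ℝ (fun z : Fin m → ℂ => Pool.Agent.Helper52.KP.sq z) z) z :=
    (sq_smooth.differentiable (by simp) z).hasFDerivAt
  have h2 : HasFDerivAt (pt ψ δ) (fderiv ℝ ψ z + δ • fderiv ℝ (fun z : Fin m → ℂ => Pool.Agent.Helper52.KP.sq z) z) z :=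
    h.hasFDerivAt.add (h1.const_mul δ)
  rw [h2.fderiv, ← fd_sq z v]
  rfl

private theorem db_pt {ψ : (Fin m → ℂ) → ℝ} (hψ : ContDiff ℝ ∞ ψ) (δ : ℝ) (k : Fin m)
    (z : Fin m → ℂ) : db k (cf (pt ψ δ)) z = db k (cf ψ) z + (δ : ℂ) * z k := by
  have hd : DifferentiableAt ℝ ψ z := hψ.differentiable (by simp) z
  have hd2 : DifferentiableAt ℝ (pt ψ δ) z := (pt_smooth hψ δ).differentiable (by simp) z
  unfold db
  rw [fd_cf hd2, fd_cf hd2, fd_pt hd, fd_pt hd, fd_cf hd, fd_cf hd]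
  have e1 : ∑ j, 2 * (inner ℝ (z j) ((Pi.single k (1 : ℂ) : Fin m → ℂ) j) : ℝ)
      = 2 * (z k).re := by
    rw [Finset.sum_eq_single k]
    · simp [Complex.inner]
    · intro b _ hb
      simp [Pi.single_eq_of_ne hb]
    · simp
  have e2 : ∑ j, 2 * (inner ℝ (z j) ((Pi.single k Complex.I : Fin m → ℂ) j) : ℝ)
      = 2 * (z k).im := by
    rw [Finset.sum_eq_single k]
    · simp [Complex.inner]
    · intro b _ hb
      simp [Pi.single_eq_of_ne hb]
    · simp
  rw [e1, e2]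
  have e3 : z k = ((z k).re : ℂ) + ((z k).im : ℂ) * Complex.I := (Complex.re_add_im (z k)).symm
  conv_rhs => rw [e3]
  push_cast
  ring

private theorem dz_coord (δ : ℂ) (j k : Fin m) (z : Fin m → ℂ) :
    dz j (fun z : Fin m → ℂ => δ * z k) z = if j = k then δ else 0 := by
  have h1 : ∀ v : Fin m → ℂ, fderiv ℝ (fun z : Fin m → ℂ => δ * z k) z v = δ * v k := by
    intro v
    have h2 : HasFDerivAt (fun z : Fin m → ℂ => δ * z k)
        (δ • (ContinuousLinearMap.proj k : (Fin m → ℂ) →L[ℝ] ℂ)) z :=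
      ((ContinuousLinearMap.proj k : (Fin m → ℂ) →L[ℝ] ℂ).hasFDerivAt).const_mul δ
    rw [h2.fderiv]
    rfl
  unfold dz
  rw [h1, h1]
  split_ifs with h
  · subst h
    rw [Pi.single_eq_same, Pi.single_eq_same]
    have := Complex.I_mul_I
    linear_combination (-δ / 2) * this
  · rw [Pi.single_eq_of_ne (Ne.symm h), Pi.single_eq_of_ne (Ne.symm h)]
    simp

private theorem hes_pt (hCAL : StCAL) {ψ : (Fin m → ℂ) → ℝ} (hψ : ContDiff ℝ ∞ ψ) (δ : ℝ)
    (z : Fin m → ℂ) : hes (pt ψ δ) z = hes ψ z + (δ : ℂ) • (1 : Matrix (Fin m) (Fin m) ℂ) := by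
  ext j k
  show dz j (db k (cf (pt ψ δ))) z = dz j (db k (cf ψ)) z
    + ((δ : ℂ) • (1 : Matrix (Fin m) (Fin m) ℂ)) j k
  have h1 : db k (cf (pt ψ δ)) = fun z => db k (cf ψ) z + (δ : ℂ) * z k := by
    funext z
    exact db_pt hψ δ k z
  have hcf : ContDiff ℝ ∞ (cf ψ) := Complex.ofRealCLM.contDiff.comp hψ
  have h2 : ContDiff ℝ ∞ (db k (cf ψ)) := by
    have h3 := ((hCAL m k k (cf ψ) (cf ψ) z).2.2.2.2 Set.univ isOpen_univ
      (contDiffOn_univ.2 hcf)).2
    exact contDiffOn_univ.1 h3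
  have h4 : DifferentiableAt ℝ (db k (cf ψ)) z := h2.differentiable (by simp) z
  have h5 : DifferentiableAt ℝ (fun z : Fin m → ℂ => (δ : ℂ) * z k) z := by fun_prop
  rw [h1, ((hCAL m j k (db k (cf ψ)) (fun z => (δ : ℂ) * z k) z).1 h4 h5).1, dz_coord]
  congr 1
  rw [Matrix.smul_apply, Matrix.one_apply]
  split_ifs <;> simp

private theorem hf_pt (A : Matrix (Fin m) (Fin m) ℂ) (δ : ℝ) (ξ : Fin m → ℂ) :
    hf (A + (δ : ℂ) • (1 : Matrix (Fin m) (Fin m) ℂ)) ξ = hf A ξ + δ * Pool.Agent.Helper52.KP.sq ξ := by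
  unfold hf Pool.Agent.Helper52.KP.sq
  have h1 : ∀ j, ∑ k, (A + (δ : ℂ) • (1 : Matrix (Fin m) (Fin m) ℂ)) j k * ξ j * star (ξ k)
      = ∑ k, A j k * ξ j * star (ξ k) + ((δ * ‖ξ j‖ ^ 2 : ℝ) : ℂ) := by
    intro j
    have h2 : ∀ k, (A + (δ : ℂ) • (1 : Matrix (Fin m) (Fin m) ℂ)) j k * ξ j * star (ξ k)
        = A j k * ξ j * star (ξ k) + (if j = k then (δ : ℂ) * (ξ j * star (ξ k)) else 0) := by
      intro k
      rw [Matrix.add_apply, Matrix.smul_apply, Matrix.one_apply]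
      split_ifs <;> simp <;> ring
    rw [Finset.sum_congr rfl fun k _ => h2 k, Finset.sum_add_distrib, Finset.sum_ite_eq]
    simp only [Finset.mem_univ, if_true]
    congr 1
    have h3 : ξ j * star (ξ j) = ((‖ξ j‖ ^ 2 : ℝ) : ℂ) := by
      rw [Complex.star_def, Complex.mul_conj, Complex.normSq_eq_norm_sq]
    rw [h3]
    push_cast
    ring
  rw [Finset.sum_congr rfl fun j _ => h1 j, Finset.sum_add_distrib, Complex.add_re,
    ← Complex.ofReal_sum, Complex.ofReal_re, Finset.mul_sum]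

private theorem nsq_le (a b : ℂ) : ‖a‖ ^ 2 ≤ 2 * ‖b‖ ^ 2 + 2 * ‖b - a‖ ^ 2 := by
  have h1 : ‖a‖ ≤ ‖b‖ + ‖b - a‖ := by
    have h2 := norm_sub_le b (b - a)
    rwa [sub_sub_cancel] at h2
  have h3 := norm_nonneg a
  have h4 := norm_nonneg b
  have h5 := norm_nonneg (b - a)
  nlinarith [sq_nonneg (‖b‖ - ‖b - a‖)]

private theorem L2_int {ψ : (Fin m → ℂ) → ℝ} {f : (Fin m → ℂ) → ℂ} :
    L2 Set.univ ψ f ↔ AEStronglyMeasurable f volume ∧
      Integrable (fun z => ‖f z‖ ^ 2 * Real.exp (-ψ z)) := by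
  unfold L2
  rw [Measure.restrict_univ, integrableOn_univ]

private theorem L2_sub {ψ : (Fin m → ℂ) → ℝ} (hψ : Continuous ψ) {f g : (Fin m → ℂ) → ℂ}
    (hf : L2 Set.univ ψ f) (hg : L2 Set.univ ψ g) :
    L2 Set.univ ψ (fun z => f z - g z) := by
  rw [L2_int] at hf hg ⊢
  have hm : AEStronglyMeasurable (fun z => f z - g z) volume := hf.1.sub hg.1
  refine ⟨hm, ?_⟩
  refine ((hf.2.const_mul 2).add (hg.2.const_mul 2)).mono' ?_ ?_
  · exact (hm.norm.pow 2).mul (Real.continuous_exp.comp hψ.neg).aestronglyMeasurable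
  · refine Eventually.of_forall fun z => ?_
    rw [Real.norm_of_nonneg (by positivity)]
    show _ ≤ 2 * (‖f z‖ ^ 2 * Real.exp (-ψ z)) + 2 * (‖g z‖ ^ 2 * Real.exp (-ψ z))
    have h1 := nsq_le (f z - g z) (f z)
    rw [sub_sub_cancel] at h1
    have h2 := mul_le_mul_of_nonneg_right h1 (Real.exp_pos (-ψ z)).le
    linarith

private theorem dom_int {ψ : (Fin m → ℂ) → ℝ} {δ : ℝ} (hδ : 0 ≤ δ) {f : (Fin m → ℂ) → ℝ}
    (hf : ∀ z, 0 ≤ f z) (h : Integrable (fun z => f z * Real.exp (-ψ z))) :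
    Integrable (fun z => f z * Real.exp (-(pt ψ δ z))) ∧
      ∫ z, f z * Real.exp (-(pt ψ δ z)) ≤ ∫ z, f z * Real.exp (-ψ z) := by
  have hle : ∀ z, f z * Real.exp (-(pt ψ δ z)) ≤ f z * Real.exp (-ψ z) := by
    intro z
    refine mul_le_mul_of_nonneg_left ?_ (hf z)
    refine Real.exp_le_exp.2 ?_
    unfold pt
    have := mul_nonneg hδ (sq_nn z)
    linarith
  have hint : Integrable (fun z => f z * Real.exp (-(pt ψ δ z))) := by
    refine h.mono' ?_ ?_
    · have h1 : (fun z => f z * Real.exp (-(pt ψ δ z)))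
          = fun z => (f z * Real.exp (-ψ z)) * Real.exp (-(δ * Pool.Agent.Helper52.KP.sq z)) := by
        funext z
        unfold pt
        rw [neg_add, Real.exp_add, mul_assoc]
      rw [h1]
      exact h.1.mul (Real.continuous_exp.comp
        (continuous_const.mul sq_smooth.continuous).neg).aestronglyMeasurable
    · refine Eventually.of_forall fun z => ?_
      rw [Real.norm_of_nonneg (mul_nonneg (hf z) (Real.exp_pos _).le)]
      exact hle z
  exact ⟨hint, integral_mono hint h hle⟩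

end

theorem hVAR (hVRD : StVRD) (hMON : StMON) (hCAL : StCAL) : StVAR := by
  intro m ψ hψ hP G hG hGL κ hκ0 hκ hκi
  obtain ⟨δ, hδ⟩ : ∃ δ : ℕ → ℝ, δ = fun i : ℕ => 1 / ((i : ℝ) + 1) := ⟨_, rfl⟩
  have hδ0 : ∀ i, 0 < δ i := fun i => by rw [hδ]; positivity
  have hδ1 : ∀ i, δ i ≤ 1 := fun i => by
    rw [hδ]
    show 1 / ((i : ℝ) + 1) ≤ 1
    rw [div_le_one (by positivity)]
    have : (0 : ℝ) ≤ i := Nat.cast_nonneg i
    linarith
  have hδt : Tendsto δ atTop (𝓝 0) := by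
    rw [hδ]
    exact tendsto_one_div_add_atTop_nhds_zero_nat
  have hψc : Continuous ψ := hψ.continuous
  obtain ⟨I₀, hI₀⟩ : ∃ I₀ : ℝ, I₀ = ∫ z, κ z * Real.exp (-ψ z) := ⟨_, rfl⟩
  -- the perturbed problems
  have hex : ∀ i, ∃ h : (Fin m → ℂ) → ℂ, Differentiable ℂ h ∧ L2 Set.univ (pt ψ (δ i)) h ∧
      nrm Set.univ (pt ψ (δ i)) (fun z => G z - h z) ≤ I₀ := by
    intro i
    have hps : ∀ z, Psd (hes (pt ψ (δ i)) z) := by
      intro z
      rw [hes_pt hCAL hψ]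
      refine ⟨?_, fun ξ => ?_⟩
      · refine (hP z).1.add ?_
        rw [Matrix.IsHermitian, Matrix.conjTranspose_smul, Matrix.conjTranspose_one]
        congr 1
        rw [Complex.star_def, Complex.conj_ofReal]
      · rw [hf_pt]
        have h1 := (hP z).2 ξ
        have h2 := mul_nonneg (hδ0 i).le (sq_nn ξ)
        linarith
    have hlow : ∀ z ξ, δ i * Pool.Agent.Helper52.KP.sq ξ ≤ hf (hes (pt ψ (δ i)) z) ξ := by
      intro z ξ
      rw [hes_pt hCAL hψ, hf_pt]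
      have h1 := (hP z).2 ξ
      linarith
    have hGL' := L2_int.1 hGL
    have hGi : L2 Set.univ (pt ψ (δ i)) G :=
      L2_int.2 ⟨hGL'.1, (dom_int (hδ0 i).le (fun z => by positivity) hGL'.2).1⟩
    have hκi' := dom_int (hδ0 i).le hκ0 hκi
    obtain ⟨h, hh1, hh2, hh3⟩ := hVRD m (pt ψ (δ i)) (pt_smooth hψ _) (δ i) (hδ0 i) hps hlow G hG
      hGi κ hκ0 (fun z ξ => by
        refine (hκ z ξ).trans ?_
        refine mul_le_mul_of_nonneg_left ?_ (hκ0 z)
        rw [hes_pt hCAL hψ, hf_pt]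
        have h2 := mul_nonneg (hδ0 i).le (sq_nn ξ)
        linarith) hκi'.1
    refine ⟨h, hh1, hh2, hh3.trans ?_⟩
    rw [hI₀]
    exact hκi'.2
  choose h hh1 hh2 hh3 using hex
  have hGL' := L2_int.1 hGL
  have hGc : Continuous G := hG.continuous
  have hptc : ∀ i, Continuous (pt ψ (δ i)) := fun i => (pt_smooth hψ _).continuous
  have hGi : ∀ i, L2 Set.univ (pt ψ (δ i)) G := fun i =>
    L2_int.2 ⟨hGL'.1, (dom_int (hδ0 i).le (fun z => by positivity) hGL'.2).1⟩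
  have hdi : ∀ i, Integrable (fun z => ‖G z - h i z‖ ^ 2 * Real.exp (-(pt ψ (δ i) z))) := fun i =>
    (L2_int.1 (L2_sub (hptc i) (hGi i) (hh2 i))).2
  have hd3 : ∀ i, ∫ z, ‖G z - h i z‖ ^ 2 * Real.exp (-(pt ψ (δ i) z)) ≤ I₀ := by
    intro i
    have h1 := hh3 i
    unfold nrm at h1
    rwa [setIntegral_univ] at h1
  have hI0 : 0 ≤ I₀ := by
    rw [hI₀]
    exact integral_nonneg fun z => mul_nonneg (hκ0 z) (Real.exp_pos _).le
  -- local bounds
  have hloc : ∀ K : Set (Fin m → ℂ), IsCompact K → ∃ B : ℝ, ∀ᶠ i in atTop,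
      ∫ z in K, ‖h i z‖ ^ 2 ≤ B := by
    intro K hK
    have hcont : Continuous (fun z => pt ψ 1 z) := (pt_smooth hψ 1).continuous
    obtain ⟨b, hb⟩ := hK.bddAbove_image hcont.continuousOn
    have hb' : ∀ z ∈ K, pt ψ 1 z ≤ b := fun z hz => hb ⟨z, hz, rfl⟩
    refine ⟨2 * (∫ z in K, ‖G z‖ ^ 2) + 2 * (Real.exp b * I₀), Eventually.of_forall fun i => ?_⟩
    have hKm : MeasurableSet K := hK.isClosed.measurableSet
    have c1 : IntegrableOn (fun z => ‖h i z‖ ^ 2) K :=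
      ((hh1 i).continuous.norm.pow 2).continuousOn.integrableOn_compact hK
    have c2 : IntegrableOn (fun z => ‖G z‖ ^ 2) K :=
      (hGc.norm.pow 2).continuousOn.integrableOn_compact hK
    have c3 : IntegrableOn (fun z => ‖G z - h i z‖ ^ 2) K :=
      ((hGc.sub (hh1 i).continuous).norm.pow 2).continuousOn.integrableOn_compact hK
    have c4 : ∫ z in K, ‖G z - h i z‖ ^ 2 ≤ Real.exp b * I₀ := by
      have d1 : ∫ z in K, ‖G z - h i z‖ ^ 2
          ≤ ∫ z in K, Real.exp b * (‖G z - h i z‖ ^ 2 * Real.exp (-(pt ψ (δ i) z))) := by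
        refine setIntegral_mono_on c3 ((hdi i).integrableOn.const_mul _) hKm fun z hz => ?_
        have d2 : pt ψ (δ i) z ≤ b := by
          refine le_trans ?_ (hb' z hz)
          unfold pt
          have := mul_le_mul_of_nonneg_right (hδ1 i) (sq_nn z)
          linarith
        have d3 : 1 ≤ Real.exp b * Real.exp (-(pt ψ (δ i) z)) := by
          rw [← Real.exp_add]
          exact Real.one_le_exp (by linarith)
        have d4 : 0 ≤ ‖G z - h i z‖ ^ 2 := by positivity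
        calc ‖G z - h i z‖ ^ 2 = ‖G z - h i z‖ ^ 2 * 1 := (mul_one _).symm
          _ ≤ ‖G z - h i z‖ ^ 2 * (Real.exp b * Real.exp (-(pt ψ (δ i) z))) :=
              mul_le_mul_of_nonneg_left d3 d4
          _ = _ := by ring
      refine d1.trans ?_
      rw [integral_const_mul]
      refine mul_le_mul_of_nonneg_left ?_ (Real.exp_pos b).le
      refine le_trans ?_ (hd3 i)
      exact setIntegral_le_integral (hdi i)
        (Eventually.of_forall fun z => mul_nonneg (by positivity) (Real.exp_pos _).le)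
    calc ∫ z in K, ‖h i z‖ ^ 2
        ≤ ∫ z in K, (2 * ‖G z‖ ^ 2 + 2 * ‖G z - h i z‖ ^ 2) := by
          refine setIntegral_mono_on c1 ((c2.const_mul 2).add (c3.const_mul 2)) hKm fun z _ => ?_
          exact nsq_le (h i z) (G z)
      _ = 2 * (∫ z in K, ‖G z‖ ^ 2) + 2 * ∫ z in K, ‖G z - h i z‖ ^ 2 := by
          rw [integral_add (c2.const_mul 2) (c3.const_mul 2), integral_const_mul,
            integral_const_mul]
      _ ≤ _ := by linarith
  obtain ⟨σ, h', hσ, hh', hlim⟩ := hMON m h hh1 hloc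
  -- Fatou
  obtain ⟨f, hf⟩ : ∃ f : (Fin m → ℂ) → ℝ, f = fun z => ‖G z - h' z‖ ^ 2 * Real.exp (-ψ z) :=
    ⟨_, rfl⟩
  obtain ⟨fi, hfi⟩ : ∃ fi : ℕ → (Fin m → ℂ) → ℝ,
      fi = fun i z => ‖G z - h (σ i) z‖ ^ 2 * Real.exp (-(pt ψ (δ (σ i)) z)) := ⟨_, rfl⟩
  have hf0 : ∀ z, 0 ≤ f z := fun z => by rw [hf]; positivity
  have hfi0 : ∀ i z, 0 ≤ fi i z := fun i z => by rw [hfi]; positivity
  have hfc : Continuous f := by
    rw [hf]
    exact ((hGc.sub hh'.continuous).norm.pow 2).mul (Real.continuous_exp.comp hψc.neg)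
  have hfic : ∀ i, Continuous (fi i) := fun i => by
    rw [hfi]
    exact ((hGc.sub (hh1 (σ i)).continuous).norm.pow 2).mul
      (Real.continuous_exp.comp (hptc (σ i)).neg)
  have hpt : ∀ z, Tendsto (fun i => fi i z) atTop (𝓝 (f z)) := by
    intro z
    rw [hfi, hf]
    have t1 : Tendsto (fun i => ‖G z - h (σ i) z‖ ^ 2) atTop (𝓝 (‖G z - h' z‖ ^ 2)) :=
      ((tendsto_const_nhds.sub (hlim z)).norm).pow 2
    have t2 : Tendsto (fun i => pt ψ (δ (σ i)) z) atTop (𝓝 (ψ z)) := by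
      unfold pt
      have t3 : Tendsto (fun i => δ (σ i) * Pool.Agent.Helper52.KP.sq z) atTop (𝓝 (0 * Pool.Agent.Helper52.KP.sq z)) :=
        (hδt.comp hσ.tendsto_atTop).mul_const _
      rw [zero_mul] at t3
      have t4 := (tendsto_const_nhds (x := ψ z)).add t3
      rwa [add_zero] at t4
    exact t1.mul ((Real.continuous_exp.tendsto _).comp t2.neg)
  have hfat : ∫⁻ z, ENNReal.ofReal (f z) ≤ ENNReal.ofReal I₀ := by
    have g1 : ∫⁻ z, liminf (fun i => ENNReal.ofReal (fi i z)) atTop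
        ≤ liminf (fun i => ∫⁻ z, ENNReal.ofReal (fi i z)) atTop :=
      lintegral_liminf_le fun i => (hfic i).measurable.ennreal_ofReal
    have g2 : ∀ z, liminf (fun i => ENNReal.ofReal (fi i z)) atTop = ENNReal.ofReal (f z) :=
      fun z => (ENNReal.tendsto_ofReal (hpt z)).liminf_eq
    simp only [g2] at g1
    refine g1.trans ?_
    have g3 : ∀ i, ∫⁻ z, ENNReal.ofReal (fi i z) ≤ ENNReal.ofReal I₀ := by
      intro i
      have g4 : Integrable (fi i) := by rw [hfi]; exact hdi (σ i)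
      rw [← ofReal_integral_eq_lintegral_ofReal g4 (Eventually.of_forall (hfi0 i))]
      refine ENNReal.ofReal_le_ofReal ?_
      rw [hfi]
      exact hd3 (σ i)
    calc liminf (fun i => ∫⁻ z, ENNReal.ofReal (fi i z)) atTop
        ≤ liminf (fun _ : ℕ => ENNReal.ofReal I₀) atTop :=
          liminf_le_liminf (Eventually.of_forall g3)
      _ = ENNReal.ofReal I₀ := liminf_const _
  have hfint : Integrable f := by
    refine ⟨hfc.aestronglyMeasurable, ?_⟩
    rw [hasFiniteIntegral_iff_ofReal (Eventually.of_forall hf0)]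
    exact lt_of_le_of_lt hfat ENNReal.ofReal_lt_top
  have hfle : ∫ z, f z ≤ I₀ := by
    rw [← ofReal_integral_eq_lintegral_ofReal hfint (Eventually.of_forall hf0)] at hfat
    exact (ENNReal.ofReal_le_ofReal_iff hI0).1 hfat
  have hL2d : L2 Set.univ ψ (fun z => G z - h' z) := by
    refine L2_int.2 ⟨(hGc.sub hh'.continuous).aestronglyMeasurable, ?_⟩
    rw [hf] at hfint
    exact hfint
  refine ⟨h', hh', ?_, ?_⟩
  · have h1 := L2_sub hψc hGL hL2d
    simpa only [sub_sub_cancel] using h1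
  · unfold nrm
    rw [setIntegral_univ, ← hI₀]
    rw [hf] at hfle
    exact hfle

end Pool.Agent.Helper10.KP
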